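import Pool.Agent.SFR.Defs

/-!
# SFR, module Opt: images of closed sets under substitutions of blocks
-/

set_option autoImplicit false

namespace Pool.Agent.SFR

open Finset Pool.Agent.STH Pool.Agent.STD Pool.Agent.STS

/-- the four operations -/
private def opt_c : Fin 4 → Bool → Bool → Bool → Bool
  | 0, _, b, c => b && c
  | 1, _, b, c => b || c
  | 2, a, b, c => (a && b) || (a && c) || (b && c)
  | 3, a, b, c => a ^^ b ^^ c

private theorem opt_sch (k : Fin 4) : (∀ a b c, opt_c k a b c = (b && c)) ∨
    (∀ a b c, opt_c k a b c = (b || c)) ∨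
    (∀ a b c, opt_c k a b c = ((a && b) || (a && c) || (b && c))) ∨
    (∀ a b c, opt_c k a b c = (a ^^ b ^^ c)) := by
  fin_cases k
  · exact Or.inl fun _ _ _ => rfl
  · exact Or.inr (Or.inl fun _ _ _ => rfl)
  · exact Or.inr (Or.inr (Or.inl fun _ _ _ => rfl))
  · exact Or.inr (Or.inr (Or.inr fun _ _ _ => rfl))

private theorem opt_ex {N : ℕ} (t : Fin N → Bool → Bool → Bool → Bool) (ht : IsSch t)
    (i : Fin N) : ∃ k : Fin 4, ∀ a b c, t i a b c = opt_c k a b c := by
  rcases ht i with h | h | h | h
  · exact ⟨0, h⟩
  · exact ⟨1, h⟩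
  · exact ⟨2, h⟩
  · exact ⟨3, h⟩

/-- exchange AND and OR -/
private def opt_d : Fin 4 → Fin 4
  | 0 => 1
  | 1 => 0
  | 2 => 2
  | 3 => 3

private theorem opt_dual : ∀ (k : Fin 4) (a b c : Bool),
    opt_c (opt_d k) (!a) (!b) (!c) = !(opt_c k a b c) := by decide

private theorem opt_zero : ∀ k : Fin 4, opt_c k false false false = false := by decide

private theorem opt_idem : ∀ (k : Fin 4) (a : Bool), opt_c k a a a = a := by decide

private theorem opt_pair : ∀ k k' : Fin 4,
    (opt_c k true true false = !(opt_c k' false false true)) →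
    (opt_c k false true true = !(opt_c k' true false false)) →
    (opt_c k true false false = !(opt_c k' false true true)) →
    (opt_c k false false true = !(opt_c k' true true false)) →
    (k = 0 ∧ k' = 1) ∨ (k = 1 ∧ k' = 0) ∨ (k = 2 ∧ k' = 2) ∨ (k = 3 ∧ k' = 3) := by decide

section abs

variable {Y E : Type} [DecidableEq E] (op : Y → Y → Y → Y) (e : Y → E) (ty : E → Fin 4)

/-- the active element of a point which is made from two points -/
private theorem opt_two (H : ∀ y y' y'' y₀ : Y, e (op y y' y'') = e y₀ ↔
      opt_c (ty (e y₀)) (decide (e y = e y₀)) (decide (e y' = e y₀)) (decide (e y'' = e y₀)) =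
        true) (y₁ y₂ y y' y'' : Y) (h : y = y₁ ∨ y = y₂) (h' : y' = y₁ ∨ y' = y₂)
    (h'' : y'' = y₁ ∨ y'' = y₂) : e (op y y' y'') = e y₁ ∨ e (op y y' y'') = e y₂ := by
  by_contra hc
  rw [not_or] at hc
  have h0 := (H y y' y'' (op y y' y'')).1 rfl
  have d : ∀ z, (z = y₁ ∨ z = y₂) → decide (e z = e (op y y' y'')) = false := by
    rintro z (rfl | rfl)
    · exact decide_eq_false fun h => hc.1 h.symm
    · exact decide_eq_false fun h => hc.2 h.symm
  rw [d y h, d y' h', d y'' h'', opt_zero] at h0
  exact absurd h0 (by decide)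

private theorem opt_types (H : ∀ y y' y'' y₀ : Y, e (op y y' y'') = e y₀ ↔
      opt_c (ty (e y₀)) (decide (e y = e y₀)) (decide (e y' = e y₀)) (decide (e y'' = e y₀)) =
        true) (y₁ y₂ : Y) (hne : e y₁ ≠ e y₂) :
    (ty (e y₁) = 0 ∧ ty (e y₂) = 1) ∨ (ty (e y₁) = 1 ∧ ty (e y₂) = 0) ∨
      (ty (e y₁) = 2 ∧ ty (e y₂) = 2) ∨ (ty (e y₁) = 3 ∧ ty (e y₂) = 3) := by
  have key : ∀ y y' y'' : Y, (y = y₁ ∨ y = y₂) → (y' = y₁ ∨ y' = y₂) → (y'' = y₁ ∨ y'' = y₂) →
      opt_c (ty (e y₁)) (decide (e y = e y₁)) (decide (e y' = e y₁)) (decide (e y'' = e y₁)) =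
        !(opt_c (ty (e y₂)) (decide (e y = e y₂)) (decide (e y' = e y₂))
          (decide (e y'' = e y₂))) := by
    intro y y' y'' h h' h''
    have h1 := H y y' y'' y₁
    have h2 := H y y' y'' y₂
    rcases opt_two op e ty H y₁ y₂ y y' y'' h h' h'' with h3 | h3
    · rw [h1.1 h3]
      have h4 : ¬ e (op y y' y'') = e y₂ := fun h5 => hne (h3.symm.trans h5)
      rw [h2, Bool.not_eq_true] at h4
      rw [h4]
      rfl
    · rw [h2.1 h3]
      have h4 : ¬ e (op y y' y'') = e y₁ := fun h5 => hne (h5.symm.trans h3)
      rw [h1, Bool.not_eq_true] at h4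
      rw [h4]
      rfl
  have d11 : decide (e y₁ = e y₁) = true := decide_eq_true rfl
  have d22 : decide (e y₂ = e y₂) = true := decide_eq_true rfl
  have d12 : decide (e y₁ = e y₂) = false := decide_eq_false hne
  have d21 : decide (e y₂ = e y₁) = false := decide_eq_false (Ne.symm hne)
  have k1 := key y₁ y₁ y₂ (Or.inl rfl) (Or.inl rfl) (Or.inr rfl)
  have k2 := key y₂ y₁ y₁ (Or.inr rfl) (Or.inl rfl) (Or.inl rfl)
  have k3 := key y₁ y₂ y₂ (Or.inl rfl) (Or.inr rfl) (Or.inr rfl)
  have k4 := key y₂ y₂ y₁ (Or.inr rfl) (Or.inr rfl) (Or.inl rfl)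
  rw [d11, d12, d21, d22] at k1 k2 k3 k4
  exact opt_pair _ _ k1 k2 k3 k4

/-- the case AND, OR -/
private theorem opt_andor (H : ∀ y y' y'' y₀ : Y, e (op y y' y'') = e y₀ ↔
      opt_c (ty (e y₀)) (decide (e y = e y₀)) (decide (e y' = e y₀)) (decide (e y'' = e y₀)) =
        true) (y₁ y₂ : Y) (hne : e y₁ ≠ e y₂) (h0 : ty (e y₁) = 0) (h1 : ty (e y₂) = 1)
    (q : E → Bool) : ∃ k : Fin 4, ∀ y y' y'' : Y,
      q (e (op y y' y'')) = opt_c k (q (e y)) (q (e y')) (q (e y'')) := by
  have hall : ∀ y, e y = e y₁ ∨ e y = e y₂ := by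
    intro y
    by_contra hc
    rw [not_or] at hc
    rcases opt_types op e ty H y₁ y (Ne.symm hc.1) with h | h | h | h
    · rcases opt_types op e ty H y₂ y (Ne.symm hc.2) with h' | h' | h' | h'
      · rw [h1] at h'
        exact absurd h'.1 (by decide)
      · rw [h.2] at h'
        exact absurd h'.2 (by decide)
      · rw [h1] at h'
        exact absurd h'.1 (by decide)
      · rw [h1] at h'
        exact absurd h'.1 (by decide)
    · rw [h0] at h
      exact absurd h.1 (by decide)
    · rw [h0] at h
      exact absurd h.1 (by decide)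
    · rw [h0] at h
      exact absurd h.1 (by decide)
  have hz : ∀ y y' y'' : Y, e (op y y' y'') = e y₁ ↔ (e y' = e y₁ ∧ e y'' = e y₁) := by
    intro y y' y''
    rw [H y y' y'' y₁, h0]
    show (decide (e y' = e y₁) && decide (e y'' = e y₁)) = true ↔ _
    rw [Bool.and_eq_true, decide_eq_true_iff, decide_eq_true_iff]
  refine ⟨if q (e y₁) then 0 else 1, fun y y' y'' => ?_⟩
  rcases hall y' with h' | h'
  · rcases hall y'' with h'' | h''
    · rw [(hz y y' y'').2 ⟨h', h''⟩, h', h'']
      cases q (e y₁) <;> rfl
    · have h3 : e (op y y' y'') = e y₂ := by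
        rcases hall (op y y' y'') with h3 | h3
        · exact absurd (h''.symm.trans ((hz y y' y'').1 h3).2) (Ne.symm hne)
        · exact h3
      rw [h3, h', h'']
      cases q (e y₁)
      · show q (e y₂) = (false || q (e y₂))
        rw [Bool.false_or]
      · show q (e y₂) = (true && q (e y₂))
        rw [Bool.true_and]
  · have h3 : e (op y y' y'') = e y₂ := by
      rcases hall (op y y' y'') with h3 | h3
      · exact absurd (h'.symm.trans ((hz y y' y'').1 h3).1) (Ne.symm hne)
      · exact h3
    rcases hall y'' with h'' | h''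
    · rw [h3, h', h'']
      cases q (e y₁)
      · show q (e y₂) = (q (e y₂) || false)
        rw [Bool.or_false]
      · show q (e y₂) = (q (e y₂) && true)
        rw [Bool.and_true]
    · rw [h3, h', h'']
      cases q (e y₁)
      · show q (e y₂) = (q (e y₂) || q (e y₂))
        rw [Bool.or_self]
      · show q (e y₂) = (q (e y₂) && q (e y₂))
        rw [Bool.and_self]

/-- the abstract statement -/
private theorem opt_abs (H : ∀ y y' y'' y₀ : Y, e (op y y' y'') = e y₀ ↔
      opt_c (ty (e y₀)) (decide (e y = e y₀)) (decide (e y' = e y₀)) (decide (e y'' = e y₀)) =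
        true) (q : E → Bool) : ∃ k : Fin 4, ∀ y y' y'' : Y,
      q (e (op y y' y'')) = opt_c k (q (e y)) (q (e y')) (q (e y'')) := by
  by_cases hc : ∀ y y' : Y, e y = e y'
  · refine ⟨0, fun y y' y'' => ?_⟩
    rw [hc y (op y y' y''), hc y' (op y y' y''), hc y'' (op y y' y''), opt_idem]
  · push Not at hc
    obtain ⟨y₁, y₂, hne⟩ := hc
    rcases opt_types op e ty H y₁ y₂ hne with h | h | h | h
    · exact opt_andor op e ty H y₁ y₂ hne h.1 h.2 q
    · exact opt_andor op e ty H y₂ y₁ (Ne.symm hne) h.2 h.1 q
    · have hall : ∀ y, ty (e y) = 2 := by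
        intro y
        by_cases hy : e y = e y₁
        · rw [hy]
          exact h.1
        · rcases opt_types op e ty H y₁ y (Ne.symm hy) with h' | h' | h' | h'
          · rw [h.1] at h'
            exact absurd h'.1 (by decide)
          · rw [h.1] at h'
            exact absurd h'.1 (by decide)
          · exact h'.2
          · rw [h.1] at h'
            exact absurd h'.1 (by decide)
      refine ⟨2, fun y y' y'' => ?_⟩
      have h0 := (H y y' y'' (op y y' y'')).1 rfl
      rw [hall] at h0
      generalize hz : e (op y y' y'') = z at h0 ⊢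
      by_cases c1 : e y = z <;> by_cases c2 : e y' = z <;> by_cases c3 : e y'' = z <;>
        simp only [c1, c2, c3, decide_true, decide_false, opt_c] at h0 ⊢
      all_goals first
        | exact absurd h0 (by decide)
        | (generalize q z = a; revert a; decide)
        | (generalize q z = a; generalize q (e y) = b; revert a b; decide)
        | (generalize q z = a; generalize q (e y') = b; revert a b; decide)
        | (generalize q z = a; generalize q (e y'') = b; revert a b; decide)
    · have hall : ∀ y, ty (e y) = 3 := by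
        intro y
        by_cases hy : e y = e y₁
        · rw [hy]
          exact h.1
        · rcases opt_types op e ty H y₁ y (Ne.symm hy) with h' | h' | h' | h'
          · rw [h.1] at h'
            exact absurd h'.1 (by decide)
          · rw [h.1] at h'
            exact absurd h'.1 (by decide)
          · rw [h.1] at h'
            exact absurd h'.1 (by decide)
          · exact h'.2
      refine ⟨3, fun y y' y'' => ?_⟩
      have h0 := (H y y' y'' (op y y' y'')).1 rfl
      have h1 := H y y' y'' y
      have h2 := H y y' y'' y'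
      have h3 := H y y' y'' y''
      rw [hall] at h0 h1 h2 h3
      generalize hz : e (op y y' y'') = z at h0 h1 h2 h3 ⊢
      by_cases c1 : e y = z
      · by_cases c2 : e y' = z
        · by_cases c3 : e y'' = z
          · rw [c1, c2, c3, opt_idem]
          · exfalso
            simp only [c1, c2, c3, decide_true, decide_false, opt_c] at h0
            exact absurd h0 (by decide)
        · by_cases c3 : e y'' = z
          · exfalso
            simp only [c1, c2, c3, decide_true, decide_false, opt_c] at h0
            exact absurd h0 (by decide)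
          · have h4 : e y' = e y'' := by
              by_contra h5
              apply c2
              have h6 : z = e y' := by
                rw [h2, c1]
                have d1 : decide (z = e y') = false := decide_eq_false (Ne.symm c2)
                have d2 : decide (e y'' = e y') = false := decide_eq_false (Ne.symm h5)
                rw [d1, d2, decide_eq_true rfl]
                rfl
              exact h6.symm
            rw [c1, h4]
            generalize q z = a
            generalize q (e y'') = b
            revert a b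
            decide
      · by_cases c2 : e y' = z
        · by_cases c3 : e y'' = z
          · exfalso
            simp only [c1, c2, c3, decide_true, decide_false, opt_c] at h0
            exact absurd h0 (by decide)
          · have h4 : e y = e y'' := by
              by_contra h5
              apply c1
              have h6 : z = e y := by
                rw [h1, c2]
                have d1 : decide (z = e y) = false := decide_eq_false (Ne.symm c1)
                have d2 : decide (e y'' = e y) = false := decide_eq_false (Ne.symm h5)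
                rw [d1, d2, decide_eq_true rfl]
                rfl
              exact h6.symm
            rw [c2, h4]
            generalize q z = a
            generalize q (e y'') = b
            revert a b
            decide
        · by_cases c3 : e y'' = z
          · have h4 : e y = e y' := by
              by_contra h5
              apply c1
              have h6 : z = e y := by
                rw [h1, c3]
                have d1 : decide (z = e y) = false := decide_eq_false (Ne.symm c1)
                have d2 : decide (e y' = e y) = false := decide_eq_false (Ne.symm h5)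
                rw [d1, d2, decide_eq_true rfl]
                rfl
              exact h6.symm
            rw [c3, h4]
            generalize q z = a
            generalize q (e y') = b
            revert a b
            decide
          · exfalso
            simp only [c1, c2, c3, decide_false, opt_c] at h0
            exact absurd h0 (by decide)

end abs

/-- one coordinate -/
private theorem opt_coord {N n : ℕ} (ψ : (Fin N → Bool) → Prop)
    (t : Fin N → Bool → Bool → Bool → Bool) (ht : IsSch t)
    (hcl : ∀ y y' y'', ψ y → ψ y' → ψ y'' → ψ (ap t y y' y''))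
    (V : Fin N → Bool → Finset (Fin n)) (i : Fin n)
    (hV : ∀ y, ψ y → ∃! j, i ∈ V j (y j)) (p : Fin N → Bool → Pt n)
    (g : (Fin N → Bool) → Pt n)
    (hg : ∀ y, ψ y → ∀ j, i ∈ V j (y j) → g y i = p j (y j) i) :
    ∃ k : Fin 4, ∀ y y' y'', ψ y → ψ y' → ψ y'' →
      g (ap t y y' y'') i = opt_c k (g y i) (g y' i) (g y'' i) := by
  classical
  choose k hk using fun j => opt_ex t ht j
  choose J hJ hJu using hV
  let e : {y // ψ y} → Fin N × Bool := fun y => (J y.1 y.2, y.1 (J y.1 y.2))
  let op : {y // ψ y} → {y // ψ y} → {y // ψ y} → {y // ψ y} := fun y y' y'' =>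
    ⟨ap t y.1 y'.1 y''.1, hcl _ _ _ y.2 y'.2 y''.2⟩
  let ty : Fin N × Bool → Fin 4 := fun x => if x.2 then k x.1 else opt_d (k x.1)
  have he : ∀ y y₀ : {y // ψ y}, e y = e y₀ ↔ y.1 (J y₀.1 y₀.2) = y₀.1 (J y₀.1 y₀.2) := by
    intro y y₀
    constructor
    · intro h
      have h1 : J y.1 y.2 = J y₀.1 y₀.2 := congrArg Prod.fst h
      have h2 : y.1 (J y.1 y.2) = y₀.1 (J y₀.1 y₀.2) := congrArg Prod.snd h
      rw [h1] at h2
      exact h2
    · intro h
      have h1 : i ∈ V (J y₀.1 y₀.2) (y.1 (J y₀.1 y₀.2)) := by
        rw [h]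
        exact hJ y₀.1 y₀.2
      have h2 := hJu y.1 y.2 _ h1
      show (J y.1 y.2, y.1 (J y.1 y.2)) = (J y₀.1 y₀.2, y₀.1 (J y₀.1 y₀.2))
      rw [← h2, h]
  have H : ∀ y y' y'' y₀ : {y // ψ y}, e (op y y' y'') = e y₀ ↔
      opt_c (ty (e y₀)) (decide (e y = e y₀)) (decide (e y' = e y₀))
        (decide (e y'' = e y₀)) = true := by
    intro y y' y'' y₀
    rw [he, show decide (e y = e y₀) = decide (y.1 (J y₀.1 y₀.2) = y₀.1 (J y₀.1 y₀.2)) from
      decide_eq_decide.2 (he y y₀), show decide (e y' = e y₀) =
      decide (y'.1 (J y₀.1 y₀.2) = y₀.1 (J y₀.1 y₀.2)) from decide_eq_decide.2 (he y' y₀),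
      show decide (e y'' = e y₀) =
      decide (y''.1 (J y₀.1 y₀.2) = y₀.1 (J y₀.1 y₀.2)) from decide_eq_decide.2 (he y'' y₀)]
    show t _ (y.1 _) (y'.1 _) (y''.1 _) = _ ↔ _
    rw [hk]
    show _ ↔ opt_c (if y₀.1 (J y₀.1 y₀.2) then k (J y₀.1 y₀.2) else opt_d (k (J y₀.1 y₀.2)))
      _ _ _ = true
    generalize y.1 (J y₀.1 y₀.2) = a
    generalize y'.1 (J y₀.1 y₀.2) = b
    generalize y''.1 (J y₀.1 y₀.2) = c
    generalize y₀.1 (J y₀.1 y₀.2) = d
    generalize k (J y₀.1 y₀.2) = κ
    revert a b c d κ
    decide
  obtain ⟨κ, hκ⟩ := opt_abs op e ty H (fun x => p x.1 x.2 i)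
  have hge : ∀ y : {y // ψ y}, g y.1 i = p (e y).1 (e y).2 i := fun y =>
    hg y.1 y.2 _ (hJ y.1 y.2)
  refine ⟨κ, fun y y' y'' h h' h'' => ?_⟩
  have h1 := hκ ⟨y, h⟩ ⟨y', h'⟩ ⟨y'', h''⟩
  simp only [← hge] at h1
  exact h1

theorem thm_Opt : St_Opt := by
  intro N n ψ t ht hcl U V hV p x₀ g hg
  have h : ∀ i : Fin n, ∃ k : Fin 4, ∀ y y' y'', ψ y → ψ y' → ψ y'' →
      g (ap t y y' y'') i = opt_c k (g y i) (g y' i) (g y'' i) := by
    intro i
    by_cases hi : i ∈ U
    · exact opt_coord ψ t ht hcl V i (fun y hy => hV y hy i hi) p g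
        fun y hy j hj => (hg y hy).2 i hi j hj
    · refine ⟨0, fun y y' y'' hy hy' hy'' => ?_⟩
      rw [(hg _ (hcl _ _ _ hy hy' hy'')).1 i hi, (hg _ hy).1 i hi, (hg _ hy').1 i hi,
        (hg _ hy'').1 i hi, opt_idem]
  choose k hk using h
  refine ⟨fun i => opt_c (k i), fun i => opt_sch (k i), fun y y' y'' hy hy' hy'' => ?_⟩
  funext i
  exact hk i y y' y'' hy hy' hy''

end Pool.Agent.SFR
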