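import Pool.Agent.SFR.Defs
import Pool.Agent.STD.Box

/-!
# DNNFs with constraint gates which imply `F`
-/

set_option autoImplicit false

namespace Pool.Agent.SFR

open Finset Pool.Agent.STH Pool.Agent.STD Pool.Agent.STS

namespace G

variable {n m s : ℕ}

lemma off_refl {N : ℕ} (R : Finset (Fin N)) (x : Pt N) : Off R x x := fun _ _ => rfl

lemma off_trans {N : ℕ} {R : Finset (Fin N)} {x y z : Pt N} (h : Off R x y) (h' : Off R y z) :
    Off R x z := fun i hi => (h' i hi).trans (h i hi)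

lemma off_mono {N : ℕ} {R R' : Finset (Fin N)} (hR : R ⊆ R') {x y : Pt N} (h : Off R x y) :
    Off R' x y := fun i hi => h i fun h' => hi (hR h')

lemma rs_apply (W : Finset (Fin n)) (x : Pt n) {i : Fin n} (hi : i ∈ W) : rs W x i = x i := by
  simp [rs, mix, hi]

/-- the value of a node depends on its variables only -/
lemma dep (D : GDnnf n m s) (v : Fin s) : ∀ x x', (∀ i ∈ D.vars v, x i = x' i) →
    (D.val v x ↔ D.val v x') := by
  induction v using WellFoundedLT.induction with
  | ind v ih =>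
    rcases D.ok v with ⟨i, b, hv, h⟩ | ⟨N, ψ, c, _, hc, hs, h⟩
    · intro x x' hx
      rw [h, h, hx i (by rw [hv]; exact mem_singleton_self i)]
    · intro x x' hx
      rw [h, h]
      refine exists_congr fun y => and_congr_right fun hy => forall_congr' fun j => ?_
      exact ih _ (hc j (y j)) x x' fun i hi => hx i (((hs y hy).2 i).2 ⟨j, hi⟩)

/-- every accepted point of `v` which agrees with `x` off `v` is accepted by `r`. -/
def Inv (D : GDnnf n m s) (r v : Fin s) (x : Pt n) : Prop :=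
  D.val v x ∧ ∀ y, Off (D.vars v) x y → D.val v y → D.val r y

open Classical in
/-- the points which use the node `v` -/
noncomputable def Tv (D : GDnnf n m s) (r v : Fin s) : Finset (Pt n) := univ.filter (Inv D r v)

lemma mem_Tv {D : GDnnf n m s} {r v : Fin s} {x : Pt n} : x ∈ Tv D r v ↔ Inv D r v x := by
  classical
  simp [Tv]

lemma mem_Tv_root {D : GDnnf n m s} {r : Fin s} {x : Pt n} : x ∈ Tv D r r ↔ D.val r x := by
  rw [mem_Tv]
  exact ⟨fun h => h.1, fun h => ⟨h, fun y _ h => h⟩⟩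

lemma isBox_Tv (D : GDnnf n m s) (r v : Fin s) : IsBox (D.vars v) (Tv D r v) := by
  intro x hx y hy
  rw [mem_Tv] at hx hy ⊢
  refine ⟨(dep D v _ _ ?_).1 hx.1, ?_⟩
  · intro i hi
    simp [mix, hi]
  · intro y' h1 h3
    exact hy.2 y' (off_trans (mix_off _ _ _) h1) h3

lemma Tv_F {D : GDnnf n m s} {r v : Fin s} {F : Pt n → Prop} (h : ∀ x, D.val r x → F x)
    {x : Pt n} (hx : x ∈ Tv D r v) : F x := by
  rw [mem_Tv] at hx
  exact h x (hx.2 x (off_refl _ _) hx.1)

/-- a box of models is thin -/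
lemma thinBox {F : Pt n → Prop} {S : ℕ} (hF : Dense F S) {W : Finset (Fin n)}
    {T : Finset (Pt n)} (hb : IsBox W T) (hT : ∀ x ∈ T, F x) : cw W T ≤ S ∨ cw Wᶜ T ≤ S := by
  classical
  by_contra hc
  push Not at hc
  have h1 := hF W T hb hc.1 hc.2
  rw [filter_true_of_mem hT] at h1
  have h2 : T.card = 0 := by omega
  rw [card_eq_zero] at h2
  rw [h2] at hc
  simp [cw_def] at hc

lemma card_le_two (W : Finset (Fin n)) (T : Finset (Pt n)) : T.card ≤ cw W T * cw Wᶜ T := by
  calc T.card = cw (W ∪ Wᶜ) T := by rw [union_compl, cw_univ]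
    _ ≤ _ := cw_union_le _ _ _

/-- the accepted restrictions of a used node are those of the points which use it -/
lemma cw_Av {D : GDnnf n m s} {r v : Fin s} (h : (Tv D r v).Nonempty) {Q : Finset (Pt n)}
    (hQ : ∀ z ∈ Q, D.val v z) : cw (D.vars v) Q ≤ cw (D.vars v) (Tv D r v) := by
  obtain ⟨x, hx⟩ := h
  rw [cw_def, cw_def]
  refine card_le_card ?_
  intro p hp
  obtain ⟨z, hz, rfl⟩ := mem_image.1 hp
  have hz' := hQ z hz
  rw [mem_Tv] at hx
  refine mem_image.2 ⟨mix (D.vars v) z x, ?_, ?_⟩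
  · rw [mem_Tv]
    refine ⟨(dep D v _ _ ?_).1 hz', ?_⟩
    · intro i hi
      simp [mix, hi]
    · intro y' h1 h3
      exact hx.2 y' (off_trans (mix_off _ _ _) h1) h3
  · rw [rs_eq_iff]
    intro i hi
    simp [mix, hi]

section Gate

variable {D : GDnnf n m s} {r u : Fin s} {N : ℕ} {ψ : (Fin N → Bool) → Prop}
  {c : Fin N → Bool → Fin s}

/-- the inputs chosen by a gate are used -/
lemma Inv_gate (hs : ∀ y, ψ y → (∀ j j', j ≠ j' →
      Disjoint (D.vars (c j (y j))) (D.vars (c j' (y j')))) ∧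
      ∀ i, i ∈ D.vars u ↔ ∃ j, i ∈ D.vars (c j (y j)))
    (hv : ∀ x, D.val u x ↔ ∃ y, ψ y ∧ ∀ j, D.val (c j (y j)) x)
    {x : Pt n} (hx : Inv D r u x) {y : Fin N → Bool} (hy : ψ y)
    (hxy : ∀ j, D.val (c j (y j)) x) (j : Fin N) : Inv D r (c j (y j)) x := by
  refine ⟨hxy j, ?_⟩
  intro x' h1 h2
  refine hx.2 x' (off_mono ?_ h1) ((hv x').2 ⟨y, hy, fun j' => ?_⟩)
  · intro i hi
    exact ((hs y hy).2 i).2 ⟨j, hi⟩
  · rcases eq_or_ne j' j with rfl | hj
    · exact h2
    · refine (dep D _ _ _ ?_).1 (hxy j')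
      intro i hi
      exact (h1 i fun h' => disjoint_left.1 ((hs y hy).1 j' j hj) hi h').symm

open Classical in
/-- the points over `x₀` which are accepted through `y` -/
noncomputable def Ty (D : GDnnf n m s) (u : Fin s) (c : Fin N → Bool → Fin s) (x₀ : Pt n)
    (y : Fin N → Bool) : Finset (Pt n) :=
  univ.filter fun x => Off (D.vars u) x₀ x ∧ ∀ j, D.val (c j (y j)) x

lemma mem_Ty {x₀ x : Pt n} {y : Fin N → Bool} :
    x ∈ Ty D u c x₀ y ↔ Off (D.vars u) x₀ x ∧ ∀ j, D.val (c j (y j)) x := by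
  classical
  simp [Ty]

lemma Ty_sub (hv : ∀ x, D.val u x ↔ ∃ y, ψ y ∧ ∀ j, D.val (c j (y j)) x)
    {x₀ : Pt n} (hx₀ : Inv D r u x₀) {y : Fin N → Bool} (hy : ψ y) {x : Pt n}
    (hx : x ∈ Ty D u c x₀ y) : Inv D r u x := by
  rw [mem_Ty] at hx
  refine ⟨(hv x).2 ⟨y, hy, hx.2⟩, ?_⟩
  intro y' h1 h2
  exact hx₀.2 y' (off_trans hx.1 h1) h2

/-- the product set of a `y` is small -/
lemma card_Ty (hs : ∀ y, ψ y → (∀ j j', j ≠ j' →
      Disjoint (D.vars (c j (y j))) (D.vars (c j' (y j')))) ∧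
      ∀ i, i ∈ D.vars u ↔ ∃ j, i ∈ D.vars (c j (y j)))
    (hv : ∀ x, D.val u x ↔ ∃ y, ψ y ∧ ∀ j, D.val (c j (y j)) x)
    {F : Pt n → Prop} {S : ℕ} (hS : 1 ≤ S) (hF : Dense F S) (hr : ∀ x, D.val r x → F x)
    {x₀ : Pt n} (hx₀ : Inv D r u x₀) {y : Fin N → Bool} (hy : ψ y)
    (hsm : ∀ j, cw (D.vars (c j (y j))) (Tv D r (c j (y j))) ≤ S) :
    (Ty D u c x₀ y).card ≤ S ^ 3 := by
  classical
  set T := Ty D u c x₀ y with hT
  have hTF : ∀ x ∈ T, F x := fun x hx => by
    have := Ty_sub hv hx₀ hy hx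
    exact hr x (this.2 x (off_refl _ _) this.1)
  have hTj : ∀ j, cw (D.vars (c j (y j))) T ≤ S := by
    intro j
    refine le_trans (cw_mono _ ?_) (hsm j)
    intro x hx
    rw [mem_Tv]
    exact Inv_gate hs hv (Ty_sub hv hx₀ hy hx) hy (mem_Ty.1 hx).2 j
  set W : ℕ → Finset (Fin n) := fun k =>
    univ.filter fun i => ∃ j : Fin N, (j : ℕ) < k ∧ i ∈ D.vars (c j (y j)) with hW
  have mW : ∀ k i, i ∈ W k ↔ ∃ j : Fin N, (j : ℕ) < k ∧ i ∈ D.vars (c j (y j)) := by
    intro k i
    simp [hW]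
  have hbox : ∀ k, IsBox (W k) T := by
    intro k x hx x' hx'
    rw [hT, mem_Ty] at hx hx' ⊢
    refine ⟨?_, fun j => ?_⟩
    · intro i hi
      have : i ∉ W k := by
        rw [mW]
        rintro ⟨j, _, hj⟩
        exact hi (((hs y hy).2 i).2 ⟨j, hj⟩)
      simp only [mix, if_neg this]
      exact hx'.1 i hi
    · by_cases hj : (j : ℕ) < k
      · refine (dep D _ _ _ ?_).1 (hx.2 j)
        intro i hi
        have : i ∈ W k := (mW k i).2 ⟨j, hj, hi⟩
        simp [mix, this]
      · refine (dep D _ _ _ ?_).1 (hx'.2 j)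
        intro i hi
        have : i ∉ W k := by
          rw [mW]
          rintro ⟨j', hj', h'⟩
          have hne : j ≠ j' := by
            rintro rfl
            exact hj hj'
          exact disjoint_left.1 ((hs y hy).1 j j' hne) hi h'
        simp [mix, this]
  have hthin : ∀ k, cw (W k) T ≤ S ∨ cw (W k)ᶜ T ≤ S := fun k => thinBox hF (hbox k) hTF
  have hS3 : S ≤ S ^ 3 := by
    calc S = S * 1 := by ring
      _ ≤ S * S ^ 2 := Nat.mul_le_mul_left _ (Nat.one_le_pow _ _ (by omega))
      _ = S ^ 3 := by ring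
  by_cases hN : cw (W N) T ≤ S
  · have hWN : W N = D.vars u := by
      ext i
      rw [mW, (hs y hy).2 i]
      constructor
      · rintro ⟨j, _, h⟩
        exact ⟨j, h⟩
      · rintro ⟨j, h⟩
        exact ⟨j, j.2, h⟩
    have h1 : cw (D.vars u)ᶜ T ≤ 1 := by
      rw [cw_def]
      refine card_le_one.2 ?_
      intro a ha b hb
      obtain ⟨x, hx, rfl⟩ := mem_image.1 ha
      obtain ⟨x', hx', rfl⟩ := mem_image.1 hb
      rw [hT, mem_Ty] at hx hx'
      rw [rs_eq_iff]
      intro i hi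
      rw [mem_compl] at hi
      rw [hx.1 i hi, hx'.1 i hi]
    calc T.card ≤ cw (D.vars u) T * cw (D.vars u)ᶜ T := card_le_two _ _
      _ ≤ S * 1 := Nat.mul_le_mul (by rw [← hWN]; exact hN) h1
      _ ≤ S ^ 3 := by omega
  · push Not at hN
    have hex : ∃ k, S < cw (W k) T := ⟨N, hN⟩
    have hk := Nat.find_spec hex
    have hk0 : Nat.find hex ≠ 0 := by
      intro h0
      rw [h0] at hk
      have : W 0 = ∅ := by
        ext i
        rw [mW]
        simp
      rw [this] at hk
      have := cw_empty_le T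
      omega
    obtain ⟨k, hkk⟩ := Nat.exists_eq_succ_of_ne_zero hk0
    rw [hkk] at hk
    have hk1 : cw (W k) T ≤ S := by
      have := Nat.find_min hex (show k < Nat.find hex by omega)
      omega
    have hk2 : cw (W (k + 1)) T ≤ S * S := by
      by_cases hkN : k < N
      · have hWk : W (k + 1) = W k ∪ D.vars (c ⟨k, hkN⟩ (y ⟨k, hkN⟩)) := by
          ext i
          rw [mem_union, mW, mW]
          constructor
          · rintro ⟨j, hj, h⟩
            rcases Nat.lt_succ_iff_lt_or_eq.1 hj with h' | h'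
            · exact Or.inl ⟨j, h', h⟩
            · right
              have : j = ⟨k, hkN⟩ := Fin.ext h'
              rw [← this]
              exact h
          · rintro (⟨j, hj, h⟩ | h)
            · exact ⟨j, by omega, h⟩
            · exact ⟨⟨k, hkN⟩, by simp, h⟩
        rw [hWk]
        exact (cw_union_le _ _ _).trans (Nat.mul_le_mul hk1 (hTj _))
      · have hWk : W (k + 1) = W k := by
          ext i
          rw [mW, mW]
          constructor
          · rintro ⟨j, hj, h⟩
            exact ⟨j, by have := j.2; omega, h⟩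
          · rintro ⟨j, hj, h⟩
            exact ⟨j, by omega, h⟩
        rw [hWk]
        exact hk1.trans (Nat.le_mul_of_pos_left _ (by omega))
    have hk3 : cw (W (k + 1))ᶜ T ≤ S := by
      rcases hthin (k + 1) with h | h
      · exact absurd hk (not_lt.2 h)
      · exact h
    calc T.card ≤ cw (W (k + 1)) T * cw (W (k + 1))ᶜ T := card_le_two _ _
      _ ≤ (S * S) * S := Nat.mul_le_mul hk2 hk3
      _ = S ^ 3 := by ring

open Classical in
/-- the point with the blocks `p j (y j)` -/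
noncomputable def glue (D : GDnnf n m s) (u : Fin s) (c : Fin N → Bool → Fin s) (x₀ : Pt n)
    (p : Fin N × Bool → Pt n) (y : Fin N → Bool) : Pt n := fun i =>
  if i ∈ D.vars u then
    (if h : ∃ j, i ∈ D.vars (c j (y j)) then p (h.choose, y h.choose) i else false)
  else x₀ i

lemma glue_off {x₀ : Pt n} (p : Fin N × Bool → Pt n) (y : Fin N → Bool) {i : Fin n}
    (hi : i ∉ D.vars u) : glue D u c x₀ p y i = x₀ i := by
  simp [glue, hi]

lemma glue_on (hs : ∀ y, ψ y → (∀ j j', j ≠ j' →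
      Disjoint (D.vars (c j (y j))) (D.vars (c j' (y j')))) ∧
      ∀ i, i ∈ D.vars u ↔ ∃ j, i ∈ D.vars (c j (y j)))
    {x₀ : Pt n} (p : Fin N × Bool → Pt n) {y : Fin N → Bool} (hy : ψ y) {i : Fin n} {j : Fin N}
    (hi : i ∈ D.vars (c j (y j))) : glue D u c x₀ p y i = p (j, y j) i := by
  have hu : i ∈ D.vars u := ((hs y hy).2 i).2 ⟨j, hi⟩
  have hex : ∃ j, i ∈ D.vars (c j (y j)) := ⟨j, hi⟩
  have hj : hex.choose = j := by
    by_contra hne
    exact disjoint_left.1 ((hs y hy).1 _ _ hne) hex.choose_spec hi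
  unfold glue
  rw [if_pos hu, dif_pos hex, hj]

/-- the union of the product sets of a closed set of `y` is small -/
lemma card_union (hO : St_Opt) (hs : ∀ y, ψ y → (∀ j j', j ≠ j' →
      Disjoint (D.vars (c j (y j))) (D.vars (c j' (y j')))) ∧
      ∀ i, i ∈ D.vars u ↔ ∃ j, i ∈ D.vars (c j (y j)))
    (hv : ∀ x, D.val u x ↔ ∃ y, ψ y ∧ ∀ j, D.val (c j (y j)) x)
    {F : Pt n → Prop} {S : ℕ} (hS : 1 ≤ S) (hF : Dense F S) (hC : ThinCl F S)
    (hr : ∀ x, D.val r x → F x) {x₀ : Pt n} (hx₀ : Inv D r u x₀)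
    (A : (Fin N → Bool) → Prop) (hA : SchClosed A) (hAψ : ∀ y, A y → ψ y)
    (Uf : Finset (Pt n)) (hU : ∀ x ∈ Uf, ∃ y, A y ∧
      (∀ j, cw (D.vars (c j (y j))) (Tv D r (c j (y j))) ≤ S ∧
        (Tv D r (c j (y j))).Nonempty) ∧ x ∈ Ty D u c x₀ y) :
    Uf.card ≤ S ^ 4 := by
  classical
  obtain ⟨t, ht, hcl⟩ := hA
  -- allowed values
  set al : Fin N → Bool → Prop := fun j b =>
    cw (D.vars (c j b)) (Tv D r (c j b)) ≤ S ∧ (Tv D r (c j b)).Nonempty with hal
  set A' : (Fin N → Bool) → Prop := fun y => A y ∧ ∀ j, al j (y j) with hA'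
  have hcons : ∀ (j : Fin N) (a b d : Bool), t j a b d = a ∨ t j a b d = b ∨ t j a b d = d := by
    intro j a b d
    rcases ht j with h | h | h | h <;> rw [h] <;> cases a <;> cases b <;> cases d <;> simp
  have hcl' : ∀ y y' y'', A' y → A' y' → A' y'' → A' (ap t y y' y'') := by
    intro y y' y'' h1 h2 h3
    refine ⟨hcl y y' y'' h1.1 h2.1 h3.1, fun j => ?_⟩
    show al j (t j (y j) (y' j) (y'' j))
    rcases hcons j (y j) (y' j) (y'' j) with h | h | h <;> rw [h]
    · exact h1.2 j
    · exact h2.2 j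
    · exact h3.2 j
  -- choices
  set Q : Fin N × Bool → Finset (Pt n) := fun e =>
    if al e.1 e.2 then (univ.filter (D.val (c e.1 e.2))).image (rs (D.vars (c e.1 e.2)))
    else {fun _ => false} with hQ
  have hQne : ∀ e, (Q e).Nonempty := by
    intro e
    by_cases h : al e.1 e.2
    · obtain ⟨x, hx⟩ := h.2
      simp only [hQ, if_pos h]
      rw [mem_Tv] at hx
      exact ⟨_, mem_image_of_mem _ (mem_filter.2 ⟨mem_univ x, hx.1⟩)⟩
    · simp only [hQ, if_neg h]
      exact singleton_nonempty _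
  have hQval : ∀ e, al e.1 e.2 → ∀ q ∈ Q e, D.val (c e.1 e.2) q ∧
      ∀ i, i ∉ D.vars (c e.1 e.2) → q i = false := by
    intro e he q hq
    simp only [hQ, if_pos he] at hq
    obtain ⟨z, hz, rfl⟩ := mem_image.1 hq
    refine ⟨(dep D _ _ _ ?_).1 (mem_filter.1 hz).2, ?_⟩
    · intro i hi
      rw [rs_apply _ _ hi]
    · intro i hi
      simp [rs, mix, hi]
  set PP : Finset (Fin N × Bool → Pt n) := Fintype.piFinset Q with hPP
  have hPPpos : 0 < PP.card := by
    rw [hPP, Fintype.card_piFinset]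
    exact prod_pos fun e _ => card_pos.2 (hQne e)
  -- the set of the glued points
  set X : (Fin N × Bool → Pt n) → Finset (Pt n) := fun p =>
    (univ.filter A').image (glue D u c x₀ p) with hX
  have hXcard : ∀ p ∈ PP, (X p).card ≤ S := by
    intro p hp
    rw [hPP, Fintype.mem_piFinset] at hp
    obtain ⟨t', ht', hg⟩ := hO N n A' t ht hcl' (D.vars u) (fun j b => D.vars (c j b))
      (fun y hy i hi => by
        obtain ⟨j, hj⟩ := ((hs y (hAψ y hy.1)).2 i).1 hi
        refine ⟨j, hj, fun j' hj' => ?_⟩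
        by_contra hne
        exact disjoint_left.1 ((hs y (hAψ y hy.1)).1 _ _ hne) hj' hj)
      (fun j b => p (j, b)) x₀ (glue D u c x₀ p)
      (fun y hy => ⟨fun i hi => glue_off p y hi,
        fun i _ j hj => glue_on hs p (hAψ y hy.1) hj⟩)
    refine hC t' ht' (X p) ?_ ?_
    · intro x hx
      obtain ⟨y, hy, rfl⟩ := mem_image.1 hx
      rw [mem_filter] at hy
      have hyψ := hAψ y hy.2.1
      refine hr _ (hx₀.2 _ ?_ ((hv _).2 ⟨y, hyψ, fun j => ?_⟩))
      · intro i hi
        exact glue_off p y hi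
      · refine (dep D _ _ _ ?_).1 (hQval (j, y j) (hy.2.2 j) _ (hp (j, y j))).1
        intro i hi
        exact (glue_on hs p hyψ hi).symm
    · intro x hx x' hx' x'' hx''
      obtain ⟨y, hy, rfl⟩ := mem_image.1 hx
      obtain ⟨y', hy', rfl⟩ := mem_image.1 hx'
      obtain ⟨y'', hy'', rfl⟩ := mem_image.1 hx''
      rw [mem_filter] at hy hy' hy''
      refine mem_image.2 ⟨ap t y y' y'', mem_filter.2 ⟨mem_univ _, hcl' _ _ _ hy.2 hy'.2 hy''.2⟩,
        hg y y' y'' hy.2 hy'.2 hy''.2⟩
  -- each point of the union is glued often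
  have hoften : ∀ z ∈ Uf, PP.card ≤ S ^ 3 * (PP.filter fun p => z ∈ X p).card := by
    intro z hz
    obtain ⟨y, hAy, hy, hzT⟩ := hU z hz
    have hyψ := hAψ y hAy
    have hA'y : A' y := ⟨hAy, hy⟩
    set Q' : Fin N × Bool → Finset (Pt n) := fun e =>
      if e.2 = y e.1 then {rs (D.vars (c e.1 e.2)) z} else Q e with hQ'
    have hsub : Fintype.piFinset Q' ⊆ PP.filter fun p => z ∈ X p := by
      intro p hp
      rw [Fintype.mem_piFinset] at hp
      have hpj : ∀ j, p (j, y j) = rs (D.vars (c j (y j))) z := by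
        intro j
        have := hp (j, y j)
        simpa [hQ'] using this
      rw [mem_filter, hPP, Fintype.mem_piFinset]
      refine ⟨fun e => ?_, ?_⟩
      · have he := hp e
        by_cases h : e.2 = y e.1
        · simp only [hQ', if_pos h, mem_singleton] at he
          rw [he]
          have hale : al e.1 e.2 := by rw [h]; exact hy e.1
          simp only [hQ, if_pos hale]
          refine mem_image_of_mem _ (mem_filter.2 ⟨mem_univ _, ?_⟩)
          rw [h]
          exact (mem_Ty.1 hzT).2 e.1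
        · simp only [hQ', if_neg h] at he
          exact he
      · refine mem_image.2 ⟨y, mem_filter.2 ⟨mem_univ _, hA'y⟩, ?_⟩
        funext i
        by_cases hi : i ∈ D.vars u
        · obtain ⟨j, hj⟩ := ((hs y hyψ).2 i).1 hi
          rw [glue_on hs p hyψ hj, hpj j, rs_apply _ _ hj]
        · rw [glue_off p y hi]
          exact ((mem_Ty.1 hzT).1 i hi).symm
    have hprodQ : PP.card = (∏ j, (Q (j, y j)).card) * (Fintype.piFinset Q').card := by
      rw [hPP, Fintype.card_piFinset, Fintype.card_piFinset, Fintype.prod_prod_type,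
        Fintype.prod_prod_type, ← prod_mul_distrib]
      refine prod_congr rfl fun j _ => ?_
      rw [Fintype.prod_bool, Fintype.prod_bool]
      rcases hyj : y j with _ | _
      · simp only [hQ', hyj]
        simp
        ring
      · simp only [hQ', hyj]
        simp
    have hprod : ∏ j, (Q (j, y j)).card ≤ S ^ 3 := by
      refine le_trans ?_ (card_Ty hs hv hS hF hr hx₀ hyψ (fun j => (hy j).1))
      rw [← Fintype.card_piFinset]
      refine card_le_card_of_injOn
        (fun q => glue D u c x₀ (fun e => q e.1) y) ?_ ?_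
      · intro q hq
        rw [mem_coe, Fintype.mem_piFinset] at hq
        rw [mem_coe, mem_Ty]
        refine ⟨fun i hi => glue_off _ y hi, fun j => ?_⟩
        refine (dep D _ _ _ ?_).1 (hQval (j, y j) (hy j) _ (hq j)).1
        intro i hi
        show q j i = glue D u c x₀ (fun e => q e.1) y i
        exact (glue_on hs (fun e => q e.1) hyψ hi).symm
      · intro q hq q' hq' h
        rw [mem_coe, Fintype.mem_piFinset] at hq hq'
        funext j
        funext i
        by_cases hi : i ∈ D.vars (c j (y j))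
        · have := congrFun h i
          simp only at this
          rw [glue_on hs _ hyψ hi, glue_on hs _ hyψ hi] at this
          exact this
        · rw [(hQval (j, y j) (hy j) _ (hq j)).2 i hi,
            (hQval (j, y j) (hy j) _ (hq' j)).2 i hi]
    rw [hprodQ]
    exact Nat.mul_le_mul hprod (card_le_card hsub)
  -- double counting
  have hdc : ∑ z ∈ Uf, (PP.filter fun p => z ∈ X p).card ≤ PP.card * S := by
    calc ∑ z ∈ Uf, (PP.filter fun p => z ∈ X p).card
        = ∑ p ∈ PP, (Uf.filter fun z => z ∈ X p).card :=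
          (sum_card_bipartiteAbove_eq_sum_card_bipartiteBelow (fun z p => z ∈ X p))
      _ ≤ ∑ _p ∈ PP, S := by
          refine sum_le_sum fun p hp => ?_
          refine (card_le_card ?_).trans (hXcard p hp)
          intro z hz
          exact (mem_filter.1 hz).2
      _ = PP.card * S := by rw [sum_const, smul_eq_mul]
  have h1 : Uf.card * PP.card ≤ S ^ 4 * PP.card := by
    calc Uf.card * PP.card = ∑ _z ∈ Uf, PP.card := by rw [sum_const, smul_eq_mul]
      _ ≤ ∑ z ∈ Uf, S ^ 3 * (PP.filter fun p => z ∈ X p).card := sum_le_sum hoften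
      _ = S ^ 3 * ∑ z ∈ Uf, (PP.filter fun p => z ∈ X p).card := by rw [mul_sum]
      _ ≤ S ^ 3 * (PP.card * S) := Nat.mul_le_mul_left _ hdc
      _ = S ^ 4 * PP.card := by ring
  exact Nat.le_of_mul_le_mul_right h1 hPPpos

end Gate

end G

open G in
/-- **DNNFs with constraint gates which imply a formula without thick boxes and without large
closed sets of models are large.** -/
theorem thm_WlkG (hO : St_Opt) : St_WlkG := by
  classical
  intro n m s D r F S hS hF hC h
  have hG : Nat.card {x // D.val r x} = (Tv D r r).card := by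
    rw [Nat.card_eq_fintype_card, Fintype.card_subtype]
    congr 1
    ext x
    rw [mem_Tv_root]
    simp
  rw [hG]
  have hm : 1 ≤ 2 ^ m := Nat.one_le_two_pow
  have hSk : ∀ a b : ℕ, a ≤ b → S ^ a ≤ S ^ b := fun a b hab => Nat.pow_le_pow_right (by omega) hab
  by_cases hr : cw (D.vars r) (Tv D r r) ≤ S
  · -- the root is thin
    have hcl : Cl (D.vars r)ᶜ (Tv D r r) := by
      intro x hx y hy
      rw [mem_Tv_root] at hx ⊢
      refine (dep D r _ _ ?_).1 hx
      intro i hi
      exact (hy i (by simpa using hi)).symm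
    have h0 : cw (∅ : Finset (Fin n)) (Tv D r r) ≤ S := (cw_empty_le _).trans hS
    rcases piece hS hF (X := D.vars r) (Y := ∅) (E := (D.vars r)ᶜ) (T := Tv D r r)
      (by rw [union_empty, union_compl]) hr h0 hcl with h6 | h6
    · rw [filter_true_of_mem (fun x hx => Tv_F h hx)] at h6
      omega
    · calc (Tv D r r).card ≤ 2 * S ^ 3 := h6
        _ ≤ 2 * S ^ 5 := Nat.mul_le_mul_left _ (hSk 3 5 (by norm_num))
        _ = 1 * (2 * S ^ 5 * 1) := by ring
        _ ≤ (s + 1) * (2 * S ^ 5 * 2 ^ m) := by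
            refine Nat.mul_le_mul (by omega) (Nat.mul_le_mul_left _ hm)
  push Not at hr
  -- the stopping node
  set St : Fin s → Finset (Pt n) := fun u => (Tv D r u).filter fun x =>
    S < cw (D.vars u) (Tv D r u) ∧ ∀ w < u, x ∈ Tv D r w → cw (D.vars w) (Tv D r w) ≤ S
    with hSt
  have hcov : Tv D r r ⊆ univ.biUnion St := by
    intro x hx
    set Nf : Finset (Fin s) := univ.filter fun u => x ∈ Tv D r u ∧ S < cw (D.vars u) (Tv D r u)
      with hN
    have hne : Nf.Nonempty := ⟨r, by simp [hN, hx, hr]⟩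
    have hmin : Nf.min' hne ∈ univ ∧ x ∈ Tv D r (Nf.min' hne) ∧
        S < cw (D.vars (Nf.min' hne)) (Tv D r (Nf.min' hne)) := mem_filter.1 (Nf.min'_mem hne)
    rw [mem_biUnion]
    refine ⟨Nf.min' hne, mem_univ _, ?_⟩
    rw [hSt, mem_filter]
    refine ⟨hmin.2.1, hmin.2.2, ?_⟩
    intro w hw hxw
    by_contra hc
    push Not at hc
    have : w ∈ Nf := by simp [hN, hxw, hc]
    exact absurd (Nf.min'_le w this) (not_le.2 hw)
  have hSt' : ∀ u, (St u).card ≤ 2 * S ^ 5 * 2 ^ m := by
    intro u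
    rcases (St u).eq_empty_or_nonempty with h0 | ⟨x₀, hx₀⟩
    · rw [h0]; simp
    rw [hSt, mem_filter] at hx₀
    have hbu : cw (D.vars u)ᶜ (Tv D r u) ≤ S := by
      rcases thinBox (W := D.vars u) hF (isBox_Tv D r u) (fun x hx => Tv_F h hx) with h1 | h1
      · omega
      · exact h1
    have hsub : St u ⊆ Tv D r u := filter_subset _ _
    rcases D.ok u with ⟨i, b, hvi, _⟩ | ⟨N, ψ, c, ⟨A, hA, hAψ⟩, hc, hs, hv⟩
    · calc (St u).card ≤ (Tv D r u).card := card_le_card hsub
        _ ≤ cw (D.vars u) (Tv D r u) * cw (D.vars u)ᶜ (Tv D r u) := card_le_two _ _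
        _ ≤ 2 ^ 1 * S := Nat.mul_le_mul ((cw_le_pow _ _).trans (by rw [hvi]; simp)) hbu
        _ = 2 * S ^ 1 * 1 := by ring
        _ ≤ 2 * S ^ 5 * 2 ^ m := Nat.mul_le_mul (Nat.mul_le_mul_left _ (hSk 1 5 (by norm_num))) hm
    · have hx₀' : Inv D r u x₀ := mem_Tv.1 hx₀.1
      set Uf : Fin (2 ^ m) → Finset (Pt n) := fun l => univ.filter fun x => ∃ y, A l y ∧
        (∀ j, cw (D.vars (c j (y j))) (Tv D r (c j (y j))) ≤ S ∧
          (Tv D r (c j (y j))).Nonempty) ∧ x ∈ Ty D u c x₀ y with hUf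
      have hUc : ∀ l, (Uf l).card ≤ S ^ 4 := fun l =>
        card_union hO hs hv hS hF hC h hx₀' (A l) (hA l) (fun y hy => (hAψ y).2 ⟨l, hy⟩) (Uf l)
          (fun x hx => (mem_filter.1 hx).2)
      have hcw : cw (D.vars u) (St u) ≤ 2 ^ m * S ^ 4 := by
        calc cw (D.vars u) (St u) ≤ cw (D.vars u) (univ.biUnion Uf) := by
              rw [cw_def, cw_def]
              refine card_le_card ?_
              intro p hp
              obtain ⟨x, hx, rfl⟩ := mem_image.1 hp
              rw [hSt, mem_filter] at hx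
              have hxI : Inv D r u x := mem_Tv.1 hx.1
              obtain ⟨y, hyψ, hxy⟩ := (hv x).1 hxI.1
              obtain ⟨l, hl⟩ := (hAψ y).1 hyψ
              refine mem_image.2 ⟨mix (D.vars u) x x₀, mem_biUnion.2 ⟨l, mem_univ _,
                mem_filter.2 ⟨mem_univ _, y, hl, fun j => ?_, ?_⟩⟩, ?_⟩
              · have hj : x ∈ Tv D r (c j (y j)) := mem_Tv.2 (Inv_gate hs hv hxI hyψ hxy j)
                exact ⟨hx.2.2 _ (hc j (y j)) hj, ⟨x, hj⟩⟩
              · rw [mem_Ty]
                refine ⟨mix_off _ _ _, fun j => (dep D _ _ _ ?_).1 (hxy j)⟩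
                intro i hi
                have : i ∈ D.vars u := ((hs y hyψ).2 i).2 ⟨j, hi⟩
                simp [mix, this]
              · rw [rs_eq_iff]
                intro i hi
                simp [mix, hi]
          _ ≤ (univ.biUnion Uf).card := by
              rw [cw_def]
              exact card_image_le
          _ ≤ ∑ l, (Uf l).card := card_biUnion_le
          _ ≤ ∑ _l : Fin (2 ^ m), S ^ 4 := sum_le_sum fun l _ => hUc l
          _ = 2 ^ m * S ^ 4 := by simp
      calc (St u).card ≤ cw (D.vars u) (St u) * cw (D.vars u)ᶜ (St u) := card_le_two _ _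
        _ ≤ (2 ^ m * S ^ 4) * S := Nat.mul_le_mul hcw ((cw_mono _ hsub).trans hbu)
        _ = 1 * S ^ 5 * 2 ^ m := by ring
        _ ≤ 2 * S ^ 5 * 2 ^ m := Nat.mul_le_mul_right _ (Nat.mul_le_mul_right _ (by norm_num))
  calc (Tv D r r).card ≤ (univ.biUnion St).card := card_le_card hcov
    _ ≤ ∑ u, (St u).card := card_biUnion_le
    _ ≤ ∑ _u : Fin s, 2 * S ^ 5 * 2 ^ m := sum_le_sum fun u _ => hSt' u
    _ = s * (2 * S ^ 5 * 2 ^ m) := by simp
    _ ≤ (s + 1) * (2 * S ^ 5 * 2 ^ m) := Nat.mul_le_mul_right _ (by omega)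

end Pool.Agent.SFR
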