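import Pool.Agent.STS.Defs
import Pool.Agent.STD.Ari

/-!
# Subtraction-free reductions between weighted counting problems: definitions, statements

A circuit on positive real weights whose gates are weighted model counts (up to constant factors)
of constraint systems closed under operations of Schaefer (2-CNF, Horn, dual Horn, renamable Horn,
affine systems, on any number of variables), at weights computed by earlier nodes. Sums and
products are special cases.
-/

set_option autoImplicit false

namespace Pool.Agent.SFR

open Finset Pool.Agent.STH Pool.Agent.STD Pool.Agent.STS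

/-- `ψ` is a union of at most `2 ^ m` sets, each closed under an operation of Schaefer. -/
def SchUnion {N : ℕ} (m : ℕ) (ψ : (Fin N → Bool) → Prop) : Prop :=
  ∃ A : Fin (2 ^ m) → (Fin N → Bool) → Prop, (∀ l, SchClosed (A l)) ∧ ∀ y, ψ y ↔ ∃ l, A l y

/-- A subtraction-free reduction with `s` nodes on the weights `w i b` (`i < n`, `b` a bit). A node
is an input `w i b`, or, up to constant factors, the weighted model count of some `ψ` (in any
number of variables, a union of at most `2 ^ m` sets closed under operations of Schaefer) whose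
weights `(j, b)` are the values of earlier nodes `c j b`. Sums are `N = 1` and `ψ` = everything,
products `N = 2` and `ψ = {(1, 1)}`, positive constants `N = 0` (values are only fixed up to
constant factors), the constant `0` is `ψ = ∅`. -/
structure Red (n m s : ℕ) where
  /-- the function computed by a node -/
  val : Fin s → (Fin n → Bool → ℝ) → ℝ
  /-- the rules -/
  ok : ∀ v : Fin s,
    (∃ (i : Fin n) (b : Bool), ∀ w, val v w = w i b) ∨
    (∃ (N : ℕ) (ψ : (Fin N → Bool) → Prop) (c : Fin N → Bool → Fin s), SchUnion m ψ ∧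
      (∀ j b, c j b < v) ∧ ∃ α β : ℝ, 0 < α ∧ ∀ w : Fin n → Bool → ℝ, (∀ i b, 0 < w i b) →
        α * wcount ψ (fun j b => val (c j b) w) ≤ val v w ∧
        val v w ≤ β * wcount ψ (fun j b => val (c j b) w))

/-- The combinatorial content of a reduction: a DNNF with constraint gates. A node has a set
`vars v` of variables and a set `val v` of accepted points, and is a literal, or accepts `x` if for
some `y` in `ψ` all nodes `c j (y j)` accept `x`; for every `y` in `ψ` the nodes `c j (y j)` have
no common variables and all variables of `v`. -/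
structure GDnnf (n m s : ℕ) where
  /-- the variables of a node -/
  vars : Fin s → Finset (Fin n)
  /-- the points accepted by a node -/
  val : Fin s → (Fin n → Bool) → Prop
  /-- the rules -/
  ok : ∀ v : Fin s,
    (∃ (i : Fin n) (b : Bool), vars v = {i} ∧ ∀ x, val v x ↔ x i = b) ∨
    (∃ (N : ℕ) (ψ : (Fin N → Bool) → Prop) (c : Fin N → Bool → Fin s), SchUnion m ψ ∧
      (∀ j b, c j b < v) ∧
      (∀ y, ψ y → (∀ j j', j ≠ j' → Disjoint (vars (c j (y j))) (vars (c j' (y j')))) ∧
        ∀ i, i ∈ vars v ↔ ∃ j, i ∈ vars (c j (y j))) ∧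
      ∀ x, val v x ↔ ∃ y, ψ y ∧ ∀ j, val (c j (y j)) x)

/-- [Sup] a reduction whose value is between `α` times the weight of `Y` and `β` times the weight
of `F` contains a DNNF with constraint gates between `Y` and `F`. PROOF as
`STD/Ari.lean` (all lemmas on `mon`, `asym`, `mem_of_bound`, `eq_of_sp` there are reusable). The
monomials of a gate are the `∑ j, f j` with `ψ y`, `f j ∈ P (c j (y j))`. By the upper bound and
`mem_of_bound` all of `P r` are indicators of points of `F`; so by the lower bound and
`mem_of_bound` again the indicators of the points of `Y` are in `P r`. A node is live if it has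
a monomial and a context (`c₀ + P v ⊆ P r`); then all its monomials have the same variables `V v`.
For a live gate restrict `ψ` to the `y` such that all `P (c j (y j))` are nonempty (this is an
intersection with a subcube, so it is again a union of closed sets: the operations are idempotent
and so conservative); then all nodes `c j (y j)` are live, with disjoint sets of variables whose
union is `V v`. Take `ψ = ∅` for gates which are not live; `vars = {i}` for inputs. -/
def St_Sup : Prop := ∀ (n m s : ℕ) (R : Red n m s) (r : Fin s) (Y F : Pt n → Prop) (α β : ℝ),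
  0 < α → (∃ x, Y x) →
  (∀ w : Fin n → Bool → ℝ, (∀ i b, 0 < w i b) →
    α * wcount Y w ≤ R.val r w ∧ R.val r w ≤ β * wcount F w) →
  ∃ D : GDnnf n m s, (∀ x, D.val r x → F x) ∧ ∀ x, Y x → D.val r x

/-- [Opt] the image of a closed set under a substitution of blocks is closed. PROOF. Fix a
coordinate `i`; if `i ∉ U` any operation will do (all four are idempotent). For `i ∈ U` let
`E = {(j, b) : i ∈ V j b, y j = b for some y in ψ}`; for every `y` in `ψ` exactly one `e = (j, b)`
in `E` is active (`y j = b`), and `g y i = p e i`. Let `χ_e y = [y j = b]`; then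
`χ_e (ap t y y' y'') = τ_e (χ_e y) (χ_e y') (χ_e y'')` where the type `τ_e` is `t j` if `b = 1`,
and `t j` with AND and OR exchanged if `b = 0`. If `e ≠ e'` are active in `y`, `y'`, then the four
points `ap t y y y'`, `ap t y' y y`, `ap t y y' y'`, `ap t y' y' y` each have exactly one active
element, which must be `e` or `e'`; this forces `{τ_e, τ_e'}` to be `{AND, OR}`, `{maj, maj}` or
`{xor, xor}`. So either all types in `E` are maj (then two of the three active elements coincide,
and `t' i = maj`), or all are xor (the same, `t' i = xor`), or `E` has at most two elements, one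
of type AND (`e₁`) and one of type OR (`e₂`): then `t' i` is AND if `p e₁ i = 1`, `p e₂ i = 0`, and
OR otherwise (if `p e₁ i = p e₂ i` then `g y i` is constant). -/
def St_Opt : Prop := ∀ (N n : ℕ) (ψ : (Fin N → Bool) → Prop)
  (t : Fin N → Bool → Bool → Bool → Bool), IsSch t →
  (∀ y y' y'', ψ y → ψ y' → ψ y'' → ψ (ap t y y' y'')) →
  ∀ (U : Finset (Fin n)) (V : Fin N → Bool → Finset (Fin n)),
  (∀ y, ψ y → ∀ i ∈ U, ∃! j, i ∈ V j (y j)) →
  ∀ (p : Fin N → Bool → Pt n) (x₀ : Pt n) (g : (Fin N → Bool) → Pt n),
  (∀ y, ψ y → (∀ i, i ∉ U → g y i = x₀ i) ∧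
    ∀ i ∈ U, ∀ j, i ∈ V j (y j) → g y i = p j (y j) i) →
  ∃ t' : Fin n → Bool → Bool → Bool → Bool, IsSch t' ∧
    ∀ y y' y'', ψ y → ψ y' → ψ y'' → g (ap t y y' y'') = ap t' (g y) (g y') (g y'')

/-- [WlkG] such DNNFs which imply `F` are large. -/
def St_WlkG : Prop := ∀ (n m s : ℕ) (D : GDnnf n m s) (r : Fin s) (F : Pt n → Prop)
  (S : ℕ), 1 ≤ S → Dense F S → ThinCl F S → (∀ x, D.val r x → F x) →
  Nat.card {x // D.val r x} ≤ (s + 1) * (2 * S ^ 5 * 2 ^ m)

/-- [Fin] the final statement: reductions of weighted `#k`-SAT to weighted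
`#2`-SAT, `#`Horn-SAT and counting solutions of linear systems which only add and multiply. Such a
reduction with `s` nodes which never overshoots and catches the models in `Y` has
`#Y ≤ 2 ^ (C (log k)² / k * n) * s * 2 ^ m` (so if `Y` is everything, then `s * 2 ^ m` is at least
`2 ^ ((1 - 2 C (log k)² / k) n)`). PROOF as `STS/Fn4.lean` (DNNF part), with `S ^ 5` in place of
`S ^ 3`; if `Y` is empty there is nothing to prove, otherwise take `D` from [Sup], then `Y` is
contained in `D.val r` and [WlkG] applies. -/
def St_Fin : Prop := ∃ C : ℝ, ∀ k : ℕ, 2 ≤ k → ∃ n₀ : ℕ, ∀ n : ℕ, n₀ ≤ n →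
  ∃ φ : CNF n, φ.length ≤ 2 ^ k * n ∧ (∀ cl ∈ φ, cl.length ≤ k) ∧
    (2 : ℝ) ^ ((1 - C * (Real.log k ^ 2 / k)) * n) ≤ Nat.card {x : Fin n → Bool // Sat φ x} ∧
    ∀ (m s : ℕ) (R : Red n m s) (r : Fin s) (Y : (Fin n → Bool) → Prop) (α β : ℝ), 0 < α →
      (∀ w : Fin n → Bool → ℝ, (∀ i b, 0 < w i b) →
        α * wcount Y w ≤ R.val r w ∧ R.val r w ≤ β * wcount (Sat φ) w) →
      (Nat.card {x : Fin n → Bool // Y x} : ℝ) ≤
        (2 : ℝ) ^ (C * (Real.log k ^ 2 / k) * n) * (s * 2 ^ m)

end Pool.Agent.SFR
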