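import Pool.Agent.SFR.Defs
import Pool.Agent.STP.Defs

/-!
# SFR, module Pla: monotone reductions and planted random formulas of all densities
-/

set_option autoImplicit false

namespace Pool.Agent.SFR

open Finset Pool.Agent.STH Pool.Agent.STD Pool.Agent.STS

/-- A reduction with `s` nodes which never overshoots the weight of `F` and catches the weight of
`Y` has `#Y ≤ L * (s * 2 ^ m)`. -/
def HardRed {n : ℕ} (F : Pt n → Prop) (L : ℝ) : Prop :=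
  ∀ (m s : ℕ) (R : Red n m s) (r : Fin s) (Y : Pt n → Prop) (α β : ℝ), 0 < α →
    (∀ w : Fin n → Bool → ℝ, (∀ i b, 0 < w i b) →
      α * wcount Y w ≤ R.val r w ∧ R.val r w ≤ β * wcount F w) →
    ((Nat.card {x // Y x} : ℕ) : ℝ) ≤ L * (s * 2 ^ m)

/-- [Pla] planted random formulas, of all densities, are hard for reductions. -/
def St_Pla : Prop := ∃ C D : ℝ, 0 < D ∧ ∀ k : ℕ, 2 ≤ k → ∃ n₀ : ℕ, ∀ n : ℕ, n₀ ≤ n →
  ∀ e : ℝ, e = Real.log k ^ 2 / k → ∀ M : ℕ, ⌊D * e * n * 2 ^ k⌋₊ ≤ M →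
  ((Nat.card {p : Fm n k M × Pt n // STH.Mod p.1 p.2 ∧ ¬
    ((2 : ℝ) ^ (-(2 * e * n)) * (2 ^ n * (1 - (1 / 2) ^ k) ^ M) ≤
      ((Nat.card {x // STH.Mod p.1 x} : ℕ) : ℝ) ∧
    HardRed (STH.Mod p.1) ((2 : ℝ) ^ (C * e * n)))} : ℕ) : ℝ) ≤
    (2 : ℝ) ^ (-(e * n)) * ((Nat.card {p : Fm n k M × Pt n // STH.Mod p.1 p.2} : ℕ) : ℝ)

/-- dense formulas are hard for reductions -/
theorem Pla_hard (h1 : St_WlkG) (h2 : St_Sup) {n : ℕ} (F : Pt n → Prop) (S : ℕ) (L : ℝ)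
    (hS : 1 ≤ S) (hL : 8 * (S : ℝ) ^ 5 ≤ L) (hd : Dense F S) (ht : ThinCl F S) :
    HardRed F L := by
  intro m s R r Y α β hα hR
  have hs : 1 ≤ s := lt_of_le_of_lt (Nat.zero_le _) r.isLt
  have hs1 : (1 : ℝ) ≤ s := by exact_mod_cast hs
  have hL0 : 0 ≤ L := le_trans (by positivity) hL
  rcases isEmpty_or_nonempty {x : Pt n // Y x} with hY | hY
  · rw [Nat.card_of_isEmpty, Nat.cast_zero]
    positivity
  obtain ⟨⟨x₁, hx₁⟩⟩ := hY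
  obtain ⟨D, hD, hD'⟩ := h2 n m s R r Y F α β hα ⟨x₁, hx₁⟩ hR
  have hw := h1 n m s D r F S hS hd ht hD
  have hcard : Nat.card {x : Pt n // Y x} ≤ Nat.card {x // D.val r x} :=
    Nat.card_le_card_of_injective (fun x => ⟨x.1, hD' x.1 x.2⟩) fun x x' hxx' =>
      Subtype.ext (Subtype.mk.inj hxx')
  have hw' : ((Nat.card {x : Pt n // Y x} : ℕ) : ℝ) ≤
      ((s : ℝ) + 1) * (2 * (S : ℝ) ^ 5 * 2 ^ m) := by exact_mod_cast hcard.trans hw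
  refine hw'.trans ?_
  calc ((s : ℝ) + 1) * (2 * (S : ℝ) ^ 5 * 2 ^ m) ≤ (2 * s) * (2 * (S : ℝ) ^ 5 * 2 ^ m) :=
        mul_le_mul_of_nonneg_right (by linarith) (by positivity)
    _ = (4 * (S : ℝ) ^ 5) * (s * 2 ^ m) := by ring
    _ ≤ L * (s * 2 ^ m) := by
        have h5 : (0 : ℝ) ≤ (S : ℝ) ^ 5 := by positivity
        exact mul_le_mul_of_nonneg_right (by linarith) (by positivity)

/-- [Pla] -/
theorem thm_Pla (h0 : STP.St_Pln) (h1 : St_WlkG) (h2 : St_Sup) : St_Pla := by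
  obtain ⟨C, D, hD, hC⟩ := h0
  refine ⟨C, D, hD, fun k hk => ?_⟩
  obtain ⟨n₀, hn₀⟩ := hC k hk
  refine ⟨n₀, fun n hn e he M hM => ?_⟩
  refine le_trans ?_ (hn₀ n hn e he M hM)
  refine Nat.cast_le.mpr (Nat.card_le_card_of_injective
    (fun p => ⟨p.1, p.2.1, fun hc => p.2.2 ?_⟩) ?_)
  · obtain ⟨h3, ⟨S, hS1, hS5, hdense, hthin, -⟩, -⟩ := hc
    exact ⟨h3, Pla_hard h1 h2 (STH.Mod p.1.1) S _ hS1 hS5 hdense hthin⟩
  · intro p p' hpp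
    exact Subtype.ext (congrArg Subtype.val hpp :)

end Pool.Agent.SFR
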