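import Pool.Agent.SFR.Defs
import Pool.Agent.STP.Defs

/-!
# Monotone reductions with Schaefer gates: planted formulas
-/

set_option autoImplicit false

namespace Pool.Agent.SFR

open Finset Pool.Agent.STH Pool.Agent.STD Pool.Agent.STS

/-- a set of models without structure is hard for reductions -/
theorem red_hard (hW : St_WlkG) (hS : St_Sup) {n : ℕ} (F : Pt n → Prop) (S : ℕ) (L : ℝ)
    (hS1 : 1 ≤ S) (hL : 8 * (S : ℝ) ^ 5 ≤ L) (hD : Dense F S) (hT : ThinCl F S) :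
    ∀ (m s : ℕ) (R : Red n m s) (r : Fin s) (Y : (Fin n → Bool) → Prop) (α β : ℝ), 0 < α →
      (∀ w : Fin n → Bool → ℝ, (∀ i b, 0 < w i b) →
        α * wcount Y w ≤ R.val r w ∧ R.val r w ≤ β * wcount F w) →
      (Nat.card {x : Fin n → Bool // Y x} : ℝ) ≤ L * (s * 2 ^ m) := by
  intro m s R r Y α β hα h
  have hL0 : (0 : ℝ) ≤ L := le_trans (by positivity) hL
  rcases isEmpty_or_nonempty {x : Fin n → Bool // Y x} with hY | hY
  · rw [Nat.card_of_isEmpty]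
    simp only [Nat.cast_zero]
    positivity
  obtain ⟨⟨x₁, hx₁⟩⟩ := hY
  obtain ⟨D, hD1, hD2⟩ := hS n m s R r Y F α β hα ⟨x₁, hx₁⟩ h
  have hw := hW n m s D r F S hS1 hD hT hD1
  have hcl : Nat.card {x : Fin n → Bool // Y x} ≤ Nat.card {x // D.val r x} :=
    Nat.card_le_card_of_injective (fun x => ⟨x.1, hD2 x.1 x.2⟩) fun x x' hxx' =>
      Subtype.ext (Subtype.mk.inj hxx')
  have hs1 : 1 ≤ s := lt_of_le_of_lt (Nat.zero_le _) r.2
  have hs1' : (1 : ℝ) ≤ s := by exact_mod_cast hs1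
  have h1 : ((Nat.card {x : Fin n → Bool // Y x} : ℕ) : ℝ) ≤
      ((s : ℝ) + 1) * (2 * (S : ℝ) ^ 5 * 2 ^ m) := by exact_mod_cast hcl.trans hw
  calc ((Nat.card {x : Fin n → Bool // Y x} : ℕ) : ℝ)
      ≤ ((s : ℝ) + 1) * (2 * (S : ℝ) ^ 5 * 2 ^ m) := h1
    _ ≤ (2 * s) * (2 * (S : ℝ) ^ 5 * 2 ^ m) :=
        mul_le_mul_of_nonneg_right (by linarith) (by positivity)
    _ ≤ (8 * (S : ℝ) ^ 5) * (s * 2 ^ m) := by
        have : (0 : ℝ) ≤ (S : ℝ) ^ 5 * (s * 2 ^ m) := by positivity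
        nlinarith
    _ ≤ L * (s * 2 ^ m) := mul_le_mul_of_nonneg_right hL (by positivity)

end Pool.Agent.SFR
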