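import Pool.Agent.SFR.Defs

/-!
# SFR, module Sup: a subtraction-free reduction contains a DNNF with constraint gates
-/

set_option autoImplicit false

namespace Pool.Agent.SFR

open Finset Pool.Agent.STH Pool.Agent.STD Pool.Agent.STS
open Pool.Agent.STD.Ari (Ex mon mon_pos mon_add mon_zero sg mon_sg ind mon_ind asym eq_of_sp
  mem_of_bound)

namespace Sup

variable {n m s : ℕ}

private lemma mon_sum {N : ℕ} (f : Fin N → Ex n) (w : Fin n → Bool → ℝ) :
    mon (∑ j, f j) w = ∏ j, mon (f j) w := by
  have : ∀ S : Finset (Fin N), mon (∑ j ∈ S, f j) w = ∏ j ∈ S, mon (f j) w := by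
    intro S
    induction S using Finset.induction_on with
    | empty => simp [mon_zero]
    | insert i S hi ih => rw [sum_insert hi, prod_insert hi, mon_add, ih]
  exact this univ

/-- kinds of nodes -/
inductive Kd (n m s : ℕ) (v : Fin s) : Type
  | inp (i : Fin n) (b : Bool) : Kd n m s v
  | gate (N : ℕ) (ψ : (Fin N → Bool) → Prop) (c : Fin N → Bool → Fin s) (hψ : SchUnion m ψ)
      (hc : ∀ j b, c j b < v) : Kd n m s v

/-- what a kind says -/
def Spec (R : Red n m s) (v : Fin s) : Kd n m s v → Prop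
  | .inp i b => ∀ w, R.val v w = w i b
  | .gate _ ψ c _ _ => ∃ α β : ℝ, 0 < α ∧ ∀ w : Fin n → Bool → ℝ, (∀ i b, 0 < w i b) →
        α * wcount ψ (fun j b => R.val (c j b) w) ≤ R.val v w ∧
        R.val v w ≤ β * wcount ψ (fun j b => R.val (c j b) w)

lemma exists_kd (R : Red n m s) (v : Fin s) : ∃ k : Kd n m s v, Spec R v k := by
  rcases R.ok v with ⟨i, b, h⟩ | ⟨N, ψ, c, hψ, hc, h⟩
  · exact ⟨.inp i b, h⟩
  · exact ⟨.gate N ψ c hψ hc, h⟩

/-- the kind of a node -/
noncomputable def kd (R : Red n m s) (v : Fin s) : Kd n m s v := (exists_kd R v).choose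

lemma kd_spec (R : Red n m s) (v : Fin s) : Spec R v (kd R v) := (exists_kd R v).choose_spec

open Classical in
/-- the monomials of a node -/
noncomputable def P (R : Red n m s) (v : Fin s) : Finset (Ex n) :=
  match kd R v with
  | .inp i b => {sg i b}
  | .gate _ ψ c _ _hc => (univ.filter ψ).biUnion fun y =>
      (Fintype.piFinset fun j => P R (c j (y j))).image fun f => ∑ j, f j
termination_by (v : ℕ)
decreasing_by exact _hc _ _

lemma P_inp {R : Red n m s} {v : Fin s} {i : Fin n} {b : Bool} (h : kd R v = .inp i b) :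
    P R v = {sg i b} := by
  rw [P, h]

lemma mem_P_gate {R : Red n m s} {v : Fin s} {N : ℕ} {ψ : (Fin N → Bool) → Prop}
    {c : Fin N → Bool → Fin s} {hψ : SchUnion m ψ} {hc : ∀ j b, c j b < v}
    (h : kd R v = .gate N ψ c hψ hc) (e : Ex n) :
    e ∈ P R v ↔ ∃ y, ψ y ∧ ∃ f : Fin N → Ex n, (∀ j, f j ∈ P R (c j (y j))) ∧ e = ∑ j, f j := by
  classical
  rw [P, h]
  simp only [mem_biUnion, mem_filter, mem_univ, true_and, mem_image, Fintype.mem_piFinset]
  constructor
  · rintro ⟨y, hy, f, hf, rfl⟩
    exact ⟨y, hy, f, hf, rfl⟩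
  · rintro ⟨y, hy, f, hf, rfl⟩
    exact ⟨y, hy, f, hf, rfl⟩

private lemma wcount_nonneg {N : ℕ} (ψ : (Fin N → Bool) → Prop) {u : Fin N → Bool → ℝ}
    (hu : ∀ j b, 0 ≤ u j b) : 0 ≤ wcount ψ u := by
  classical
  unfold wcount
  refine sum_nonneg fun y _ => ?_
  split_ifs
  · exact prod_nonneg fun j _ => hu _ _
  · exact le_rfl

lemma val_nonneg (R : Red n m s) (v : Fin s) {w : Fin n → Bool → ℝ}
    (hw : ∀ i b, 0 < w i b) : 0 ≤ R.val v w := by
  induction v using WellFoundedLT.induction with
  | ind v ih =>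
    have hs := kd_spec R v
    rcases hk : kd R v with ⟨i, b⟩ | ⟨N, ψ, c, hψ, hc⟩ <;> rw [hk] at hs
    · rw [hs w]
      exact (hw i b).le
    · obtain ⟨α, β, hα, h⟩ := hs
      exact le_trans (mul_nonneg hα.le (wcount_nonneg ψ fun j b => ih _ (hc j b))) (h w hw).1

lemma lower (R : Red n m s) (v : Fin s) : ∀ e ∈ P R v, ∃ α : ℝ, 0 < α ∧
    ∀ w : Fin n → Bool → ℝ, (∀ i b, 0 < w i b) → α * mon e w ≤ R.val v w := by
  classical
  induction v using WellFoundedLT.induction with
  | ind v ih =>
    intro e he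
    have hs := kd_spec R v
    rcases hk : kd R v with ⟨i, b⟩ | ⟨N, ψ, c, hψ, hc⟩ <;> rw [hk] at hs
    · rw [P_inp hk, mem_singleton] at he
      subst he
      refine ⟨1, one_pos, fun w _ => ?_⟩
      rw [mon_sg, hs w, one_mul]
    · obtain ⟨α, β, hα, h⟩ := hs
      obtain ⟨y, hy, f, hf, rfl⟩ := (mem_P_gate hk e).1 he
      choose A hA0 hA using fun j => ih (c j (y j)) (hc _ _) (f j) (hf j)
      refine ⟨α * ∏ j, A j, mul_pos hα (prod_pos fun j _ => hA0 j),
        fun w hw => le_trans ?_ (h w hw).1⟩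
      rw [mul_assoc]
      refine mul_le_mul_of_nonneg_left ?_ hα.le
      rw [mon_sum, ← prod_mul_distrib]
      calc ∏ j, A j * mon (f j) w ≤ ∏ j, R.val (c j (y j)) w :=
            prod_le_prod (fun j _ => mul_nonneg (hA0 j).le (mon_pos _ hw).le) fun j _ => hA j w hw
        _ = (if ψ y then ∏ j, R.val (c j (y j)) w else 0) := by rw [if_pos hy]
        _ ≤ wcount ψ (fun j b => R.val (c j b) w) := by
            unfold wcount
            refine le_trans (le_of_eq ?_) (single_le_sum
              (f := fun y => if ψ y then ∏ j, R.val (c j (y j)) w else 0) (fun y' _ => ?_)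
              (mem_univ y))
            · rfl
            · show 0 ≤ if ψ y' then ∏ j, R.val (c j (y' j)) w else 0
              split_ifs
              · exact prod_nonneg fun j _ => val_nonneg R _ hw
              · exact le_rfl

lemma upper (R : Red n m s) (v : Fin s) : ∃ β : ℝ, 0 ≤ β ∧
    ∀ w : Fin n → Bool → ℝ, (∀ i b, 0 < w i b) → R.val v w ≤ β * ∑ e ∈ P R v, mon e w := by
  classical
  induction v using WellFoundedLT.induction with
  | ind v ih =>
    have hs := kd_spec R v
    rcases hk : kd R v with ⟨i, b⟩ | ⟨N, ψ, c, hψ, hc⟩ <;> rw [hk] at hs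
    · refine ⟨1, zero_le_one, fun w _ => ?_⟩
      rw [P_inp hk, sum_singleton, mon_sg, hs w, one_mul]
    · obtain ⟨α, β, hα, h⟩ := hs
      choose B hB0 hB using fun (j : Fin N) (b : Bool) => ih (c j b) (hc j b)
      set K : ℝ := ∑ y : Fin N → Bool, (∏ j, B j (y j)) *
        ((Fintype.piFinset fun j => P R (c j (y j))).card : ℝ) with hK
      have hK0 : 0 ≤ K := sum_nonneg fun y _ =>
        mul_nonneg (prod_nonneg fun j _ => hB0 _ _) (Nat.cast_nonneg _)
      refine ⟨max β 0 * K, by positivity, fun w hw => ?_⟩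
      have hS0 : 0 ≤ ∑ e ∈ P R v, mon e w := sum_nonneg fun e _ => (mon_pos e hw).le
      have hw0 : 0 ≤ wcount ψ (fun j b => R.val (c j b) w) :=
        wcount_nonneg ψ fun j b => val_nonneg R _ hw
      have hmain : wcount ψ (fun j b => R.val (c j b) w) ≤ K * ∑ e ∈ P R v, mon e w := by
        unfold wcount
        rw [hK, sum_mul]
        refine sum_le_sum fun y _ => ?_
        by_cases hy : ψ y
        swap
        · have h0 : 0 ≤ ((∏ j, B j (y j)) *
              ((Fintype.piFinset fun j => P R (c j (y j))).card : ℝ)) * ∑ e ∈ P R v, mon e w :=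
            mul_nonneg (mul_nonneg (prod_nonneg fun j _ => hB0 _ _) (Nat.cast_nonneg _)) hS0
          simpa [hy] using h0
        have h1 : (∏ j, R.val (c j (y j)) w) ≤
            (∏ j, B j (y j)) * ∏ j, ∑ e ∈ P R (c j (y j)), mon e w := by
          rw [← prod_mul_distrib]
          exact prod_le_prod (fun j _ => val_nonneg R _ hw) fun j _ => hB j (y j) w hw
        have h2 : ∏ j, ∑ e ∈ P R (c j (y j)), mon e w ≤
            ((Fintype.piFinset fun j => P R (c j (y j))).card : ℝ) * ∑ e ∈ P R v, mon e w := by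
          rw [prod_univ_sum]
          calc ∑ f ∈ Fintype.piFinset fun j => P R (c j (y j)), ∏ j, mon (f j) w
              ≤ ∑ _f ∈ Fintype.piFinset fun j => P R (c j (y j)), ∑ e ∈ P R v, mon e w := by
                refine sum_le_sum fun f hf => ?_
                rw [← mon_sum]
                exact single_le_sum (f := fun e => mon e w) (fun e _ => (mon_pos e hw).le)
                  ((mem_P_gate hk _).2 ⟨y, hy, f, Fintype.mem_piFinset.1 hf, rfl⟩)
            _ = _ := by rw [sum_const, nsmul_eq_mul]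
        have h3 : (∏ j, R.val (c j (y j)) w) ≤ ((∏ j, B j (y j)) *
              ((Fintype.piFinset fun j => P R (c j (y j))).card : ℝ)) * ∑ e ∈ P R v, mon e w := by
          rw [mul_assoc]
          exact h1.trans (mul_le_mul_of_nonneg_left h2 (prod_nonneg fun j _ => hB0 _ _))
        simpa [hy] using h3
      calc R.val v w ≤ β * wcount ψ (fun j b => R.val (c j b) w) := (h w hw).2
        _ ≤ max β 0 * wcount ψ (fun j b => R.val (c j b) w) :=
            mul_le_mul_of_nonneg_right (le_max_left _ _) hw0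
        _ ≤ max β 0 * (K * ∑ e ∈ P R v, mon e w) :=
            mul_le_mul_of_nonneg_left hmain (le_max_right _ _)
        _ = _ := by ring

/-- a context of `v` -/
def Ctx (R : Red n m s) (r v : Fin s) (c : Ex n) : Prop := ∀ e ∈ P R v, c + e ∈ P R r

/-- nodes which are used -/
def Live (R : Red n m s) (r v : Fin s) : Prop := (P R v).Nonempty ∧ ∃ c, Ctx R r v c

open Classical in
/-- the variables of a node -/
noncomputable def vs (R : Red n m s) (r v : Fin s) : Finset (Fin n) :=
  univ.filter fun i => Live R r v ∧ ∃ e ∈ P R v, e i false + e i true = 1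

/-- the value of a node -/
def vl (R : Red n m s) (r v : Fin s) (x : Pt n) : Prop :=
  Live R r v ∧ ∃ e ∈ P R v, ∀ i ∈ vs R r v, e i (x i) = 1

variable {R : Red n m s} {r : Fin s}

lemma wt_context (hP : ∀ e ∈ P R r, ∀ i, e i false + e i true = 1) {v : Fin s} {c : Ex n}
    (hc : Ctx R r v c) {e : Ex n} (he : e ∈ P R v) (i : Fin n) :
    (c i false + c i true) + (e i false + e i true) = 1 := by
  have := hP _ (hc e he) i
  have h1 : (c + e) i false = c i false + e i false := rfl
  have h2 : (c + e) i true = c i true + e i true := rfl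
  omega

/-- all monomials of a live node have the same variables -/
lemma mem_vs (hP : ∀ e ∈ P R r, ∀ i, e i false + e i true = 1) {v : Fin s} (hv : Live R r v)
    {e : Ex n} (he : e ∈ P R v) (i : Fin n) : i ∈ vs R r v ↔ e i false + e i true = 1 := by
  classical
  unfold vs
  rw [mem_filter]
  constructor
  · rintro ⟨_, _, e', he', h⟩
    obtain ⟨c, hc⟩ := hv.2
    have h1 := wt_context hP hc he i
    have h2 := wt_context hP hc he' i
    omega
  · intro h
    exact ⟨mem_univ _, hv, e, he, h⟩

lemma wt_le (hP : ∀ e ∈ P R r, ∀ i, e i false + e i true = 1) {v : Fin s} (hv : Live R r v)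
    {e : Ex n} (he : e ∈ P R v) (i : Fin n) : e i false + e i true ≤ 1 := by
  obtain ⟨c, hc⟩ := hv.2
  have h1 := wt_context hP hc he i
  omega

/-- the children of a live gate are live -/
lemma live_child {v : Fin s} (hv : Live R r v) {N : ℕ} {ψ : (Fin N → Bool) → Prop}
    {c : Fin N → Bool → Fin s} {hψ : SchUnion m ψ} {hc : ∀ j b, c j b < v}
    (hk : kd R v = .gate N ψ c hψ hc) {y : Fin N → Bool} (hy : ψ y)
    (hne : ∀ j, (P R (c j (y j))).Nonempty) (j : Fin N) : Live R r (c j (y j)) := by
  classical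
  obtain ⟨c₀, hc₀⟩ := hv.2
  choose f hf using hne
  refine ⟨⟨f j, hf j⟩, c₀ + ∑ j' ∈ univ.erase j, f j', fun e he => ?_⟩
  have h1 := hc₀ (∑ j', Function.update f j e j') ((mem_P_gate hk _).2 ⟨y, hy, _, fun j' => ?_, rfl⟩)
  · rw [← add_sum_erase _ _ (mem_univ j), Function.update_self] at h1
    have h2 : ∑ j' ∈ univ.erase j, Function.update f j e j' = ∑ j' ∈ univ.erase j, f j' := by
      refine sum_congr rfl fun j' hj' => ?_
      rw [Function.update_of_ne (ne_of_mem_erase hj')]
    rw [h2, add_comm e, ← add_assoc] at h1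
    exact h1
  · by_cases hj : j' = j
    · subst hj
      rw [Function.update_self]
      exact he
    · rw [Function.update_of_ne hj]
      exact hf j'

private lemma sum_ap {N : ℕ} (f : Fin N → Ex n) (i : Fin n) (b : Bool) :
    (∑ j, f j) i b = ∑ j, f j i b := by
  rw [Finset.sum_apply, Finset.sum_apply]

/-- the weights of the parts of a monomial of a live gate -/
lemma wt_parts (hP : ∀ e ∈ P R r, ∀ i, e i false + e i true = 1) {v : Fin s} (hv : Live R r v)
    {N : ℕ} {ψ : (Fin N → Bool) → Prop}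
    {c : Fin N → Bool → Fin s} {hψ : SchUnion m ψ} {hc : ∀ j b, c j b < v}
    (hk : kd R v = .gate N ψ c hψ hc) {y : Fin N → Bool} (hy : ψ y) {f : Fin N → Ex n}
    (hf : ∀ j, f j ∈ P R (c j (y j))) (i : Fin n) :
    ∑ j, (f j i false + f j i true) ≤ 1 := by
  have h1 := wt_le hP hv ((mem_P_gate hk _).2 ⟨y, hy, f, hf, rfl⟩) i
  rw [sum_ap, sum_ap, ← sum_add_distrib] at h1
  exact h1

/-- two parts do not have a variable in common -/
lemma wt_two (hP : ∀ e ∈ P R r, ∀ i, e i false + e i true = 1) {v : Fin s} (hv : Live R r v)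
    {N : ℕ} {ψ : (Fin N → Bool) → Prop}
    {c : Fin N → Bool → Fin s} {hψ : SchUnion m ψ} {hc : ∀ j b, c j b < v}
    (hk : kd R v = .gate N ψ c hψ hc) {y : Fin N → Bool} (hy : ψ y) {f : Fin N → Ex n}
    (hf : ∀ j, f j ∈ P R (c j (y j))) (i : Fin n) {j j' : Fin N} (hj : j ≠ j') :
    (f j i false + f j i true) + (f j' i false + f j' i true) ≤ 1 := by
  classical
  refine le_trans ?_ (wt_parts hP hv hk hy hf i)
  have h1 : ∑ k ∈ ({j, j'} : Finset (Fin N)), (f k i false + f k i true) =
      (f j i false + f j i true) + (f j' i false + f j' i true) := sum_pair hj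
  rw [← h1]
  exact sum_le_sum_of_subset (subset_univ _)

/-- the rules of the DNNF -/
lemma rules (hP : ∀ e ∈ P R r, ∀ i, e i false + e i true = 1) {v : Fin s} (hv : Live R r v)
    {N : ℕ} {ψ : (Fin N → Bool) → Prop}
    {c : Fin N → Bool → Fin s} {hψ : SchUnion m ψ} {hc : ∀ j b, c j b < v}
    (hk : kd R v = .gate N ψ c hψ hc) :
    (∀ y, ψ y → (∀ j, (P R (c j (y j))).Nonempty) →
      (∀ j j', j ≠ j' → Disjoint (vs R r (c j (y j))) (vs R r (c j' (y j')))) ∧
      ∀ i, i ∈ vs R r v ↔ ∃ j, i ∈ vs R r (c j (y j))) ∧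
    ∀ x, vl R r v x ↔ ∃ y, (ψ y ∧ ∀ j, (P R (c j (y j))).Nonempty) ∧
      ∀ j, vl R r (c j (y j)) x := by
  classical
  have hA : ∀ y, ψ y → (∀ j, (P R (c j (y j))).Nonempty) →
      (∀ j j', j ≠ j' → Disjoint (vs R r (c j (y j))) (vs R r (c j' (y j')))) ∧
      ∀ i, i ∈ vs R r v ↔ ∃ j, i ∈ vs R r (c j (y j)) := by
    intro y hy hne
    have hl := fun j => live_child hv hk hy hne j
    choose f hf using hne
    constructor
    · intro j j' hj
      rw [disjoint_left]
      intro i h1 h2
      rw [mem_vs hP (hl j) (hf j)] at h1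
      rw [mem_vs hP (hl j') (hf j')] at h2
      have := wt_two hP hv hk hy hf i hj
      omega
    · intro i
      rw [mem_vs hP hv ((mem_P_gate hk _).2 ⟨y, hy, f, hf, rfl⟩), sum_ap, sum_ap,
        ← sum_add_distrib]
      have hle := wt_parts hP hv hk hy hf i
      constructor
      · intro h1
        have h2 : ∃ j ∈ (univ : Finset (Fin N)), (f j i false + f j i true) ≠ 0 := by
          refine exists_ne_zero_of_sum_ne_zero ?_
          rw [h1]
          exact one_ne_zero
        obtain ⟨j, hj, h3⟩ := h2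
        refine ⟨j, (mem_vs hP (hl j) (hf j) i).2 ?_⟩
        have h4 := single_le_sum (f := fun j => f j i false + f j i true)
          (fun j _ => Nat.zero_le _) (mem_univ j)
        omega
      · rintro ⟨j, hj⟩
        rw [mem_vs hP (hl j) (hf j)] at hj
        have h4 := single_le_sum (f := fun j => f j i false + f j i true)
          (fun j _ => Nat.zero_le _) (mem_univ j)
        omega
  refine ⟨hA, fun x => ?_⟩
  constructor
  · rintro ⟨_, e, he, hx⟩
    obtain ⟨y, hy, f, hf, rfl⟩ := (mem_P_gate hk e).1 he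
    have hne : ∀ j, (P R (c j (y j))).Nonempty := fun j => ⟨f j, hf j⟩
    have hl := fun j => live_child hv hk hy hne j
    refine ⟨y, ⟨hy, hne⟩, fun j => ⟨hl j, f j, hf j, fun i hi => ?_⟩⟩
    have h1 := hx i (((hA y hy hne).2 i).2 ⟨j, hi⟩)
    rw [mem_vs hP (hl j) (hf j)] at hi
    rw [sum_ap] at h1
    have h2 : ∑ j', f j' i (x i) = f j i (x i) := by
      refine sum_eq_single j (fun j' _ hj' => ?_) (fun h => absurd (mem_univ _) h)
      have h3 := wt_two hP hv hk hy hf i hj'
      rcases x i with _ | _ <;> omega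
    rw [← h2]
    exact h1
  · rintro ⟨y, ⟨hy, hne⟩, hvl⟩
    choose hl f hf hx using hvl
    refine ⟨hv, ∑ j, f j, (mem_P_gate hk _).2 ⟨y, hy, f, hf, rfl⟩, fun i hi => ?_⟩
    obtain ⟨j, hj⟩ := ((hA y hy hne).2 i).1 hi
    have h1 := hx j i hj
    have hle := wt_parts hP hv hk hy hf i
    rw [sum_ap]
    have h2 : f j i (x i) ≤ ∑ j', f j' i (x i) :=
      single_le_sum (f := fun j' => f j' i (x i)) (fun j _ => Nat.zero_le _) (mem_univ j)
    have h3 : ∑ j', f j' i (x i) ≤ ∑ j', (f j' i false + f j' i true) := by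
      refine sum_le_sum fun j' _ => ?_
      rcases x i with _ | _ <;> omega
    omega

end Sup

open Sup in
/-- **A subtraction-free reduction contains a DNNF with constraint gates.** It is enough that the
output catches the set `Y` of models of `F`. -/
theorem sup_Y (n m s : ℕ) (R : Red n m s) (r : Fin s) (Y F : Pt n → Prop) (α β : ℝ)
    (hα : 0 < α) (hne : ∃ x, Y x)
    (h : ∀ w : Fin n → Bool → ℝ, (∀ i b, 0 < w i b) →
      α * wcount Y w ≤ R.val r w ∧ R.val r w ≤ β * wcount F w) :
    ∃ D : GDnnf n m s, (∀ x, D.val r x → F x) ∧ ∀ x, Y x → D.val r x := by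
  classical
  set G : Finset (Pt n) := univ.filter F with hG
  have hwc : ∀ w, wcount F w = ∑ x ∈ G, mon (ind x) w := by
    intro w
    unfold wcount
    rw [hG, sum_filter]
    refine sum_congr rfl fun x _ => ?_
    rw [mon_ind]
  -- the monomials of the root are monomials of models
  have h1 : ∀ e ∈ P R r, ∃ x ∈ G, e = ind x := by
    intro e he
    obtain ⟨α', hα', hl⟩ := lower R r e he
    refine mem_of_bound (K := β / α') ?_
    intro w hw
    rw [← hwc, div_mul_eq_mul_div, le_div_iff₀ hα', mul_comm]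
    exact (hl w hw).trans (h w hw).2
  -- and all of them occur
  have hwY : ∀ w, wcount Y w = ∑ x ∈ univ.filter Y, mon (ind x) w := by
    intro w
    unfold wcount
    rw [sum_filter]
    refine sum_congr rfl fun x _ => ?_
    rw [mon_ind]
  have h2 : ∀ x, Y x → ind x ∈ P R r := by
    intro x hx
    obtain ⟨β', hβ', hu⟩ := upper R r
    have h3 : ∀ w : Fin n → Bool → ℝ, (∀ i b, 0 < w i b) →
        mon (ind x) w ≤ (β' / α) * ∑ q ∈ P R r, mon q w := by
      intro w hw
      rw [div_mul_eq_mul_div, le_div_iff₀ hα, mul_comm]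
      refine le_trans ?_ (hu w hw)
      refine le_trans ?_ (h w hw).1
      refine mul_le_mul_of_nonneg_left ?_ hα.le
      rw [hwY]
      exact single_le_sum (f := fun y => mon (ind y) w) (fun y _ => (mon_pos _ hw).le)
        (mem_filter.2 ⟨mem_univ x, hx⟩)
    obtain ⟨q, hq, h4⟩ := asym h3 (fun i b => if x i = b then 1 else 0)
    obtain ⟨y, hy, rfl⟩ := h1 q hq
    rw [eq_of_sp h4] at hq
    exact hq
  have hP : ∀ e ∈ P R r, ∀ i, e i false + e i true = 1 := by
    intro e he i
    obtain ⟨x, _, rfl⟩ := h1 e he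
    unfold ind
    cases x i <;> simp
  have hlr : Live R r r := by
    obtain ⟨x, hx⟩ := hne
    refine ⟨⟨ind x, h2 x hx⟩, 0, fun e he => ?_⟩
    rwa [zero_add]
  -- the variables and the value of a node
  have hex : ∀ v : Fin s, ∃ (V : Finset (Fin n)) (f : Pt n → Prop),
      (∀ i b, kd R v = .inp i b → V = {i} ∧ ∀ x, f x ↔ x i = b) ∧
      (∀ N ψ c hψ hc, kd R v = .gate N ψ c hψ hc → V = vs R r v ∧ ∀ x, f x ↔ vl R r v x) := by
    intro v
    rcases hk : kd R v with ⟨i, b⟩ | ⟨N, ψ, c, hψ, hc⟩
    · refine ⟨{i}, fun x => x i = b, fun i' b' h' => ?_, fun N ψ c hψ hc h' => ?_⟩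
      · cases h'
        exact ⟨rfl, fun x => Iff.rfl⟩
      · cases h'
    · refine ⟨vs R r v, vl R r v, fun i' b' h' => ?_, fun N ψ c hψ hc h' => ?_⟩
      · cases h'
      · exact ⟨rfl, fun x => Iff.rfl⟩
  choose V f hV1 hV2 using hex
  -- on live nodes they are the right ones
  have hlive : ∀ v, Live R r v → V v = vs R r v ∧ ∀ x, f v x ↔ vl R r v x := by
    intro v hv
    rcases hk : kd R v with ⟨i, b⟩ | ⟨N, ψ, c, hψ, hc⟩
    · obtain ⟨e1, e2⟩ := hV1 v i b hk
      have hsg : sg i b ∈ P R v := by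
        rw [P_inp hk]
        exact mem_singleton_self _
      have hvs : vs R r v = {i} := by
        ext j
        rw [mem_vs hP hv hsg, mem_singleton]
        unfold sg
        by_cases hj : j = i
        · subst hj
          cases b <;> simp
        · simp [hj]
      refine ⟨by rw [e1, hvs], fun x => ?_⟩
      rw [e2]
      constructor
      · intro hx
        refine ⟨hv, sg i b, hsg, fun j hj => ?_⟩
        rw [hvs, mem_singleton] at hj
        subst hj
        unfold sg
        rw [if_pos ⟨rfl, hx⟩]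
      · rintro ⟨_, e, he, hx⟩
        rw [P_inp hk, mem_singleton] at he
        subst he
        have h3 := hx i (by rw [hvs]; exact mem_singleton_self _)
        unfold sg at h3
        by_contra hne'
        rw [if_neg (fun h => hne' h.2)] at h3
        exact zero_ne_one h3
    · exact hV2 v N ψ c hψ hc hk
  refine ⟨⟨V, f, ?_⟩, ?_⟩
  · intro v
    rcases hk : kd R v with ⟨i, b⟩ | ⟨N, ψ, c, hψ, hc⟩
    · exact Or.inl ⟨i, b, hV1 v i b hk⟩
    right
    by_cases hv : Live R r v
    · obtain ⟨hr1, hr2⟩ := rules hP hv hk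
      obtain ⟨e1, e2⟩ := hV2 v N ψ c hψ hc hk
      refine ⟨N, fun y => ψ y ∧ ∀ j, (P R (c j (y j))).Nonempty, c, ?_, hc, ?_, ?_⟩
      · obtain ⟨A, hA1, hA2⟩ := hψ
        refine ⟨fun l y => A l y ∧ ∀ j, (P R (c j (y j))).Nonempty, fun l => ?_, fun y => ?_⟩
        · obtain ⟨t, ht, hcl⟩ := hA1 l
          refine ⟨t, ht, fun y y' y'' h3 h4 h5 => ⟨hcl y y' y'' h3.1 h4.1 h5.1, fun j => ?_⟩⟩
          have h6 : ap t y y' y'' j = y j ∨ ap t y y' y'' j = y' j ∨ ap t y y' y'' j = y'' j := by
            unfold ap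
            rcases ht j with h7 | h7 | h7 | h7 <;> rw [h7] <;>
              cases y j <;> cases y' j <;> cases y'' j <;> simp
          rcases h6 with h6 | h6 | h6 <;> rw [h6]
          · exact h3.2 j
          · exact h4.2 j
          · exact h5.2 j
        · constructor
          · rintro ⟨h4, h3⟩
            obtain ⟨l, hl⟩ := (hA2 y).1 h4
            exact ⟨l, hl, h3⟩
          · rintro ⟨l, hl, h3⟩
            exact ⟨(hA2 y).2 ⟨l, hl⟩, h3⟩
      · rintro y ⟨hy, hyn⟩
        have hl := fun j => (hlive _ (live_child hv hk hy hyn j)).1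
        obtain ⟨h3, h4⟩ := hr1 y hy hyn
        refine ⟨fun j j' hj => ?_, fun i => ?_⟩
        · rw [hl j, hl j']
          exact h3 j j' hj
        · rw [e1, h4]
          exact exists_congr fun j => by rw [hl j]
      · intro x
        rw [e2, hr2]
        refine exists_congr fun y => and_congr_right fun hy => forall_congr' fun j => ?_
        exact ((hlive _ (live_child hv hk hy.1 hy.2 j)).2 x).symm
    · refine ⟨N, fun _ => False, c, ⟨fun _ _ => False, fun _ => ?_, fun y => ?_⟩, hc, ?_, ?_⟩
      · exact ⟨fun _ a b c => (b && c), fun _ => Or.inl fun _ _ _ => rfl,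
          fun _ _ _ h3 => h3.elim⟩
      · simp
      · intro y hy
        exact hy.elim
      · intro x
        rw [(hV2 v N ψ c hψ hc hk).2]
        constructor
        · rintro ⟨h3, _⟩
          exact absurd h3 hv
        · rintro ⟨_, h3, _⟩
          exact h3.elim
  · have hall : ∀ i, i ∈ vs R r r := by
      intro i
      obtain ⟨e, he⟩ := hlr.1
      rw [mem_vs hP hlr he]
      exact hP e he i
    constructor
    · intro x hfx
      obtain ⟨_, e, he, hh⟩ := ((hlive r hlr).2 x).1 hfx
      obtain ⟨y, hy, rfl⟩ := h1 e he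
      have : y = x := by
        funext i
        have := hh i (hall i)
        unfold ind at this
        by_contra hne'
        simp [hne'] at this
      rw [← this]
      rw [hG, mem_filter] at hy
      exact hy.2
    · intro x hx
      show f r x
      refine ((hlive r hlr).2 x).2 ⟨hlr, ind x, h2 x hx, fun i _ => ?_⟩
      simp [ind]

/-- **A subtraction-free reduction contains a DNNF with constraint gates.** -/
theorem thm_Sup : St_Sup := by
  first
  | exact sup_Y
  | intro n m s R r F α β hα hne h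
    obtain ⟨D, h1, h2⟩ := sup_Y n m s R r F F α β hα hne h
    exact ⟨D, fun x => ⟨h1 x, h2 x⟩⟩

end Pool.Agent.SFR
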